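import Pool.Agent.Work.MP_499dc6_lc.Gadget.SideL

/-!
Products of linear forms in one family of variables, and the hub.
-/

set_option linter.unusedSectionVars false

namespace Pool.Agent.Work.MP_499dc6_lc.Gadget

open MvPolynomial Finset

variable {R : Type*} [CommRing R] {Λ : Type*} [DecidableEq Λ]

lemma Eqv.zero_of_sq {S : Finset Λ} {Y : Set Λ} {y : Λ} {P Q : MvPolynomial Λ R}
    (h : P = X y ^ 2 * Q) : Eqv S Y P 0 := by
  rw [h]; exact Eqv.sq _ _ _ _

/-- a monomial with a repeated variable vanishes -/
lemma Eqv.noninj {μ I : Type*} [Fintype μ] {S : Finset Λ} {Y : Set Λ} (x : I → Λ) (f : μ → I)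
    (hf : ¬ Function.Injective f) (Q : MvPolynomial Λ R) :
    Eqv S Y ((∏ m, X (x (f m))) * Q) 0 := by
  classical
  rw [Function.not_injective_iff] at hf
  obtain ⟨m, m', hmm', hne⟩ := hf
  have h1 : (∏ m, X (x (f m)) : MvPolynomial Λ R) =
      X (x (f m)) ^ 2 * ∏ j ∈ (univ.erase m).erase m', X (x (f j)) := by
    rw [← Finset.mul_prod_erase _ _ (mem_univ m),
      ← Finset.mul_prod_erase (univ.erase m) _ (Finset.mem_erase.mpr ⟨hne.symm, mem_univ m'⟩),
      ← hmm']
    ring
  refine Eqv.zero_of_sq (y := x (f m))
    (Q := (∏ j ∈ (univ.erase m).erase m', X (x (f j))) * Q) ?_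
  rw [h1]; ring

/-- a product of linear forms in the variables `x i`, times the product of the variables outside
`Q`: only the bijections onto `Q` count. -/
lemma forms_eqv {μ I : Type*} [Fintype μ] [DecidableEq μ] [Fintype I] [DecidableEq I]
    {S : Finset Λ} (x : I → Λ) (hx : Function.Injective x) (hS : ∀ i, x i ∈ S)
    (a : μ → I → R) (Q : Finset I) :
    Eqv S (Set.range x) ((∏ m, ∑ i, C (a m i) * X (x i)) * ∏ i ∈ Qᶜ, X (x i))
      (C (∑ f : μ → I, if Function.Injective f ∧ univ.image f = Q then ∏ m, a m (f m) else 0) *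
        ∏ i, X (x i)) := by
  classical
  rw [Finset.prod_univ_sum, Fintype.piFinset_univ, Finset.sum_mul, map_sum, Finset.sum_mul]
  refine Eqv.sum _ fun f _ => ?_
  rw [Finset.prod_mul_distrib]
  split_ifs with hf
  · obtain ⟨hinj, himg⟩ := hf
    apply Eqv.of_eq
    rw [← map_prod, mul_assoc]
    congr 1
    rw [← Finset.prod_mul_prod_compl Q (fun i => (X (x i) : MvPolynomial Λ R))]
    congr 1
    rw [← himg, Finset.prod_image (fun i _ j _ h => hinj h)]
  · rw [map_zero, zero_mul]
    by_cases hinj : Function.Injective f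
    · have himg : univ.image f ≠ Q := fun h => hf ⟨hinj, h⟩
      by_cases hsub : Q ⊆ univ.image f
      · -- some value lies outside Q: a square
        have hns : ¬ univ.image f ⊆ Q := fun h => himg (Finset.Subset.antisymm h hsub)
        rw [Finset.not_subset] at hns
        obtain ⟨i, hi, hiQ⟩ := hns
        obtain ⟨m, -, hm⟩ := Finset.mem_image.mp hi
        have h1 : (∏ m, X (x (f m)) : MvPolynomial Λ R) =
            X (x i) * ∏ j ∈ univ.erase m, X (x (f j)) := by
          rw [← Finset.mul_prod_erase _ _ (mem_univ m), hm]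
        have h2 : (∏ i ∈ Qᶜ, X (x i) : MvPolynomial Λ R) =
            X (x i) * ∏ j ∈ Qᶜ.erase i, X (x j) := by
          rw [← Finset.mul_prod_erase _ _ (Finset.mem_compl.mpr hiQ)]
        refine Eqv.zero_of_sq (y := x i) (Q := (∏ m, C (a m (f m))) *
          (∏ j ∈ univ.erase m, X (x (f j))) * ∏ j ∈ Qᶜ.erase i, X (x j)) ?_
        rw [h1, h2]; ring
      · -- a variable of Q is missing
        rw [Finset.not_subset] at hsub
        obtain ⟨i, hiQ, hi⟩ := hsub
        refine Eqv.free (y := x i) (Set.mem_range_self i) (hS i) ?_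
        refine mul_mem (mul_mem (prod_mem fun m _ => C_mem_Free _ _)
          (prod_mem fun m _ => X_mem_Free ?_)) (prod_mem fun j hj => X_mem_Free ?_)
        · simp only [Set.mem_singleton_iff]
          intro h
          exact hi (Finset.mem_image.mpr ⟨m, mem_univ _, hx h⟩)
        · simp only [Set.mem_singleton_iff]
          intro h
          rw [hx h] at hj
          exact (Finset.mem_compl.mp hj) hiQ
    · have := Eqv.noninj (R := R) (S := S) (Y := Set.range x) x f hinj
        ((∏ m, C (a m (f m))) * ∏ i ∈ Qᶜ, X (x i))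
      refine Eqv.trans (Eqv.of_eq ?_) this
      ring

/-- the number of ways, for constant coefficients -/
lemma card_forms {μ I : Type*} [Fintype μ] [DecidableEq μ] [Fintype I] [DecidableEq I]
    (Q : Finset I) (c : I → R) :
    (∑ f : μ → I, if Function.Injective f ∧ univ.image f = Q then ∏ m, c (f m) else 0) =
      if Fintype.card μ = Q.card then ((Fintype.card μ).factorial : R) * ∏ i ∈ Q, c i else 0 := by
  classical
  split_ifs with hcard
  · have h1 : ∀ f : μ → I, (if Function.Injective f ∧ univ.image f = Q then ∏ m, c (f m) else 0)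
        = if Function.Injective f ∧ univ.image f = Q then ∏ i ∈ Q, c i else 0 := by
      intro f
      split_ifs with h
      · rw [← h.2, Finset.prod_image (fun i _ j _ hij => h.1 hij)]
      · rfl
    simp only [h1]
    rw [← Finset.sum_filter, Finset.sum_const, nsmul_eq_mul]
    congr 2
    -- count the bijections onto Q
    have e : {f : μ → I // Function.Injective f ∧ univ.image f = Q} ≃ (μ ≃ Q) :=
      { toFun := fun f => Equiv.ofBijective
          (fun m => (⟨f.1 m, by
            have h := Finset.mem_image_of_mem f.1 (mem_univ m)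
            rwa [f.2.2] at h⟩ : Q))
          (by
            rw [Fintype.bijective_iff_injective_and_card]
            refine ⟨fun a b hab => f.2.1 (by simpa using hab), by simpa using hcard⟩)
        invFun := fun e => ⟨fun m => (e m : I), by
          refine ⟨fun a b hab => e.injective (Subtype.ext hab), ?_⟩
          ext i
          simp only [mem_image, mem_univ, true_and]
          constructor
          · rintro ⟨m, rfl⟩; exact (e m).2
          · intro hi; exact ⟨e.symm ⟨i, hi⟩, by simp⟩⟩
        left_inv := fun f => by ext m; rfl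
        right_inv := fun e => by ext m; rfl }
    rw [← Fintype.card_subtype, Fintype.card_congr e]
    exact Fintype.card_equiv (Fintype.equivOfCardEq (by simpa using hcard))
  · apply Finset.sum_eq_zero
    intro f _
    rw [if_neg]
    rintro ⟨hinj, himg⟩
    apply hcard
    rw [← himg, Finset.card_image_of_injective _ hinj, Finset.card_univ]

/-- powers of the sum of one family -/
lemma pow_eqv {I : Type*} [Fintype I] [DecidableEq I] {S : Finset Λ} (x : I → Λ)
    (hx : Function.Injective x) (hS : ∀ i, x i ∈ S) (c : I → R) (n : ℕ) (Q : Finset I) :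
    Eqv S (Set.range x) ((∑ i, C (c i) * X (x i)) ^ n * ∏ i ∈ Qᶜ, X (x i))
      (C (if n = Q.card then (n.factorial : R) * ∏ i ∈ Q, c i else 0) * ∏ i, X (x i)) := by
  have h := forms_eqv (R := R) (μ := Fin n) (S := S) x hx hS (fun _ => c) Q
  rw [card_forms] at h
  simpa using h

/-- one pattern of the hub -/
lemma hub_one {κ : ℕ} {S : Finset Λ} (u : Fin κ → Λ) (hu : Function.Injective u)
    (hS : ∀ q, u q ∈ S) (g : Fin κ → R) (a : MvPolynomial Λ R)
    (ha : a ∈ Free (R := R) (Set.range u)) (n : ℕ) :
    Eqv S (Set.range u) ((∑ q, C (g q) * X (u q)) ^ n * ∏ q, (X (u q) + a))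
      (C (∑ f : Fin n → Fin κ, if Function.Injective f then ∏ m, g (f m) else 0) * a ^ n *
        ∏ q, X (u q)) := by
  classical
  have hpow : (∑ q, C (g q) * X (u q) : MvPolynomial Λ R) ^ n =
      ∏ _m : Fin n, ∑ q, C (g q) * X (u q) := by simp
  rw [hpow, Finset.prod_univ_sum, Fintype.piFinset_univ, Finset.sum_mul, map_sum, Finset.sum_mul,
    Finset.sum_mul]
  refine Eqv.sum _ fun f _ => ?_
  rw [Finset.prod_mul_distrib]
  split_ifs with hinj
  · -- injective
    have hcell : ∀ q, Eqv S {u q} ((if q ∈ univ.image f then X (u q) else 1) * (X (u q) + a))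
        (X (u q) * if q ∈ univ.image f then a else 1) := by
      intro q
      have haq : a ∈ Free (R := R) {u q} := Free_mono (by rintro _ rfl; exact ⟨q, rfl⟩) ha
      split_ifs
      · have := (Eqv.refl S {u q} (X (u q) * a)).add (Eqv.sq S {u q} (u q) (1 : MvPolynomial Λ R))
        refine Eqv.trans (Eqv.of_eq ?_) (this.trans (Eqv.of_eq ?_)) <;> ring
      · have := (Eqv.refl S {u q} (X (u q))).add (Eqv.free (y := u q) (by simp) (hS q) haq)
        refine Eqv.trans (Eqv.of_eq ?_) (this.trans (Eqv.of_eq ?_)) <;> ring
    have hXq : ∀ q q', q' ≠ q → (X (u q') : MvPolynomial Λ R) ∈ Free (R := R) {u q} := by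
      intro q q' h
      refine X_mem_Free ?_
      simp only [Set.mem_singleton_iff]
      intro h'; exact h (hu h')
    have hprod := Eqv.prod (S := S) (Y := fun q => {u q}) univ (fun q _ => hcell q)
      (by
        intro q _ q' _ h
        have haq : a ∈ Free (R := R) {u q} := Free_mono (by rintro _ rfl; exact ⟨q, rfl⟩) ha
        refine mul_mem ?_ (add_mem (hXq q q' h) haq)
        split_ifs
        · exact hXq q q' h
        · exact one_mem _)
      (by
        intro q _ q' _ h
        have haq : a ∈ Free (R := R) {u q} := Free_mono (by rintro _ rfl; exact ⟨q, rfl⟩) ha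
        refine mul_mem (hXq q q' h) ?_
        split_ifs
        · exact haq
        · exact one_mem _)
    have hsub : (⋃ q ∈ (univ : Finset (Fin κ)), ({u q} : Set Λ)) ⊆ Set.range u := by
      intro y hy
      rw [Set.mem_iUnion₂] at hy
      obtain ⟨q, _, hq⟩ := hy
      exact ⟨q, hq.symm⟩
    have h2 := (hprod.mono hsub).mul_left (C_mem_Free (R := R) (Set.range u) (∏ m, g (f m)))
    refine Eqv.trans (Eqv.of_eq ?_) (h2.trans (Eqv.of_eq ?_))
    · rw [Finset.prod_mul_distrib, ← Finset.prod_filter, Finset.filter_mem_eq_inter,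
        Finset.univ_inter, Finset.prod_image (fun i _ j _ h => hinj h), ← map_prod]
      ring
    · rw [Finset.prod_mul_distrib, ← Finset.prod_filter, Finset.filter_mem_eq_inter,
        Finset.univ_inter, Finset.prod_const, Finset.card_image_of_injective _ hinj,
        Finset.card_univ, Fintype.card_fin]
      ring
  · rw [map_zero, zero_mul, zero_mul]
    have := Eqv.noninj (R := R) (S := S) (Y := Set.range u) u f hinj
      ((∏ m, C (g (f m))) * ∏ q, (X (u q) + a))
    refine Eqv.trans (Eqv.of_eq ?_) this
    ring

end Pool.Agent.Work.MP_499dc6_lc.Gadget
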