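import Pool.Agent.Work.MP_499dc6_lc.Gadget.Assemble

/-!
Evaluation of the permanent of the gadget.
-/

set_option linter.unusedSectionVars false
set_option synthInstance.maxSize 2000

namespace Pool.Agent.Work.MP_499dc6_lc.Gadget

open MvPolynomial Finset

section expand

lemma prod_compl_eq {M ι : Type*} [CommMonoid M] [Fintype ι] [DecidableEq ι] (S : Finset ι)
    (P : ι → M) : ∏ r ∈ Sᶜ, P r = ∏ r, if r ∈ S then 1 else P r := by
  rw [← Finset.prod_subset (Finset.subset_univ Sᶜ)]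
  · refine Finset.prod_congr rfl fun r hr => ?_
    rw [if_neg (Finset.mem_compl.mp hr)]
  · intro r _ hr
    rw [Finset.mem_compl, not_not] at hr
    rw [if_pos hr]

/-- `Q` in group `a` -/
def inGroup {A : Type*} {n : ℕ} (a : A) (Q : Finset (Fin n)) : Finset (A × Fin n) :=
  Q.map ⟨fun i => (a, i), fun i j h => by simpa using h⟩

lemma mem_inGroup {A : Type*} {n : ℕ} (a : A) (Q : Finset (Fin n)) (r : A × Fin n) :
    r ∈ inGroup a Q ↔ r.1 = a ∧ r.2 ∈ Q := by
  unfold inGroup
  rw [Finset.mem_map]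
  constructor
  · rintro ⟨i, hi, rfl⟩; exact ⟨rfl, hi⟩
  · rintro ⟨h1, h2⟩; exact ⟨r.2, h2, by rw [← h1]; rfl⟩

lemma card_inGroup {A : Type*} {n : ℕ} (a : A) (Q : Finset (Fin n)) :
    (inGroup a Q).card = Q.card := Finset.card_map _

lemma inGroup_empty {A : Type*} {n : ℕ} (a : A) : inGroup a (∅ : Finset (Fin n)) = ∅ := rfl

lemma prod_inGroup {M A : Type*} [CommMonoid M] {n : ℕ} (a : A) (Q : Finset (Fin n))
    (f : A × Fin n → M) : ∏ r ∈ inGroup a Q, f r = ∏ i ∈ Q, f (a, i) := by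
  unfold inGroup
  rw [Finset.prod_map]
  rfl

variable {M : Type*} [CommRing M] {A : Type*} [Fintype A] [DecidableEq A]

lemma expand_group {n : ℕ} (a : A) (P B : A → Fin n → M) :
    (∏ i, (P a i - 2 * B a i)) * ∏ a' ∈ univ.erase a, ∏ i, P a' i =
      ∑ Q ∈ (univ : Finset (Fin n)).powerset, (∏ r ∈ inGroup a Q, (-2 * B r.1 r.2)) *
        ∏ r ∈ (inGroup a Q)ᶜ, P r.1 r.2 := by
  classical
  have h1 : ∏ i, (P a i - 2 * B a i) = ∏ i, ((-2 * B a i) + P a i) :=
    Finset.prod_congr rfl fun i _ => by ring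
  rw [h1, Finset.prod_add, Finset.sum_mul]
  refine Finset.sum_congr rfl fun Q _ => ?_
  rw [prod_inGroup, mul_assoc]
  congr 1
  rw [prod_compl_eq, Fintype.prod_prod_type, ← Finset.mul_prod_erase univ _ (mem_univ a)]
  congr 1
  · rw [← Finset.compl_eq_univ_sdiff, prod_compl_eq]
    refine Finset.prod_congr rfl fun i _ => ?_
    simp only [mem_inGroup, true_and]
  · refine Finset.prod_congr rfl fun a' ha' => Finset.prod_congr rfl fun i _ => ?_
    rw [if_neg]
    rw [mem_inGroup]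
    rintro ⟨h, _⟩
    exact (Finset.ne_of_mem_erase ha') h

lemma sideVal_expand {R Λ : Type*} [CommRing R] [DecidableEq Λ] {A : Type*} [Fintype A]
    [DecidableEq A] {k : ℕ} (lam : MvPolynomial Λ R) (H v : A → Fin (k + 1) → MvPolynomial Λ R) :
    sideVal lam H v = ∑ a, ∑ Q ∈ (univ : Finset (Fin (k + 1))).powerset,
      ((∏ r ∈ inGroup a Q, (-2 * v r.1 r.2)) * ∏ r ∈ (inGroup a Q)ᶜ, H r.1 r.2) +
      lam * ∏ r : A × Fin (k + 1), H r.1 r.2 := by
  unfold sideVal
  congr 1
  · exact Finset.sum_congr rfl fun a _ => expand_group a _ _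
  · rw [Fintype.prod_prod_type]

lemma const_aux {M : Type*} [CommRing M] {ι : Type*} (Q : Finset ι) (f : ι → M) (L : ℕ)
    (h : ι → Fin L → M) :
    ∏ r ∈ Q, (f r * ∏ l : Fin L, (2 * h r l)) =
      2 ^ (L * Q.card) * ∏ r ∈ Q, (f r * ∏ l : Fin L, h r l) := by
  have h1 : ∀ r, f r * ∏ l : Fin L, (2 * h r l) = 2 ^ L * (f r * ∏ l : Fin L, h r l) := by
    intro r
    rw [Finset.prod_mul_distrib, Finset.prod_const, Finset.card_univ, Fintype.card_fin]
    ring
  simp only [h1]
  rw [Finset.prod_mul_distrib, Finset.prod_const, ← pow_mul]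

lemma term_A {M : Type*} [CommRing M] {ι : Type*} [Fintype ι] [DecidableEq ι] {L : ℕ}
    (Q : Finset ι) (x v : ι → M) (t : ι → Fin L → M) (O : M) :
    (∏ r ∈ Q, (-2 * (O * v r))) * ∏ r ∈ Qᶜ, (x r * ∏ l, (2 * t r l)) =
      ((-2) ^ Q.card * 2 ^ (L * Qᶜ.card)) * ((O ^ Q.card * ∏ r ∈ Q, v r) *
        ∏ r ∈ Qᶜ, (x r * ∏ l, t r l)) := by
  rw [const_aux, Finset.prod_mul_distrib, Finset.prod_mul_distrib, Finset.prod_const,
      Finset.prod_const]
  ring

lemma term_A_univ {M : Type*} [CommRing M] {ι : Type*} [Fintype ι] [DecidableEq ι] {L : ℕ}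
    (x : ι → M) (t : ι → Fin L → M) (O : M) (v : ι → M) :
    ∏ r, (x r * ∏ l, (2 * t r l)) =
      ((-2) ^ (∅ : Finset ι).card * 2 ^ (L * (∅ : Finset ι)ᶜ.card)) *
      ((O ^ (∅ : Finset ι).card * ∏ r ∈ (∅ : Finset ι), v r) *
        ∏ r ∈ (∅ : Finset ι)ᶜ, (x r * ∏ l, t r l)) := by
  have := term_A (∅ : Finset ι) x v t O
  rw [← this]
  simp

lemma term_B {M : Type*} [CommRing M] {ι : Type*} [Fintype ι] [DecidableEq ι] {L : ℕ}
    (Q : Finset ι) (x G : ι → M) (t : ι → Fin L → M) (W : M) :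
    (∏ r ∈ Q, (-2 * (G r * W))) * ∏ r ∈ Qᶜ, (x r * ∏ l, (2 * t r l)) =
      ((-2) ^ Q.card * 2 ^ (L * Qᶜ.card)) * (((∏ r ∈ Q, G r) * W ^ Q.card) *
        ∏ r ∈ Qᶜ, (x r * ∏ l, t r l)) := by
  rw [const_aux, Finset.prod_mul_distrib, Finset.prod_mul_distrib, Finset.prod_const,
      Finset.prod_const]
  ring

/-- rearrangement of the families -/
lemma rearr {M : Type*} [CommRing M] {ι ι' : Type*} [Fintype ι] [DecidableEq ι] [Fintype ι']
    [DecidableEq ι'] {L : ℕ} (Q : Finset ι) (Q' : Finset ι') (cA cB : M) (O : Fin L → M)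
    (v : ι → M) (x : ι → M) (t : ι → Fin L → M) (G : ι' → Fin L → M) (W : M)
    (x' : ι' → M) (t' : ι' → Fin L → M) (hub : Fin L → M) (n n' : ℕ) :
    (cA * (((∏ l, O l) ^ n * ∏ r ∈ Q, v r) * ∏ r ∈ Qᶜ, (x r * ∏ l, t r l))) *
      (cB * (((∏ c ∈ Q', ∏ l, G c l) * W ^ n') * ∏ c ∈ Q'ᶜ, (x' c * ∏ l, t' c l))) *
      ∏ l, hub l =
    (cA * cB) * ((((∏ r ∈ Q, v r) * ∏ c ∈ Q'ᶜ, x' c) * (W ^ n' * ∏ r ∈ Qᶜ, x r)) *
      ∏ l, ((O l ^ n * ∏ c ∈ Q'ᶜ, t' c l) * (((∏ c ∈ Q', G c l) * hub l) *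
        ∏ r ∈ Qᶜ, t r l))) := by
  rw [Finset.prod_mul_distrib, Finset.prod_mul_distrib]
  rw [Finset.prod_mul_distrib (s := (univ : Finset (Fin L))),
    Finset.prod_mul_distrib (s := (univ : Finset (Fin L))),
    Finset.prod_mul_distrib (s := (univ : Finset (Fin L))),
    Finset.prod_mul_distrib (s := (univ : Finset (Fin L)))]
  rw [Finset.prod_comm (s := Qᶜ), Finset.prod_comm (s := Q'ᶜ), Finset.prod_comm (s := Q'),
    Finset.prod_pow]
  ring

lemma rearr2 {M : Type*} [CommRing M] {L : ℕ} (cc c1 c2 P1 P2 : M) (a b P R : Fin L → M) :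
    cc * (((c1 * P1) * (c2 * P2)) * ∏ l, ((a l * P l) * (b l * R l))) =
      (cc * ((c1 * c2) * ∏ l, (a l * b l))) * ((P1 * P2) * ∏ l, (P l * R l)) := by
  rw [Finset.prod_mul_distrib, Finset.prod_mul_distrib, Finset.prod_mul_distrib,
    Finset.prod_mul_distrib (f := a), Finset.prod_mul_distrib (f := P)]
  ring

end expand

section eval

variable {R : Type*} [CommRing R]
variable {A B : Type*} [Fintype A] [DecidableEq A] [Fintype B] [DecidableEq B]
variable {ka kb L Sn κ : ℕ}

/-- the terms of the row side -/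
noncomputable def TA (Sn κ : ℕ) (V : A × Fin (ka + 1) → B × Fin (kb + 1) → R)
    (Q : Finset (A × Fin (ka + 1))) : MvPolynomial (GV A B ka kb L Sn κ) R :=
  C ((-2) ^ Q.card * 2 ^ (L * Qᶜ.card)) * (((∏ l, oForm R A B ka kb L Sn κ l) ^ Q.card *
    ∏ r ∈ Q, vForm V r) * ∏ r ∈ Qᶜ, (X (pA (.inr (.inl (r, Fin.last L)))) *
      ∏ l : Fin L, X (pA (.inr (.inr (.inr (r, l)))))))

/-- the terms of the column side -/
noncomputable def TB (A : Type*) [Fintype A] (ka : ℕ) (β : Fin L → Fin Sn → Fin (kb + 1) → R)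
    (g : Fin κ → R)
    (Q : Finset (B × Fin (kb + 1))) : MvPolynomial (GV A B ka kb L Sn κ) R :=
  C ((-2) ^ Q.card * 2 ^ (L * Qᶜ.card)) * (((∏ c ∈ Q, ∏ l, gForm A B ka β g l c.2) *
    wForm R A B ka kb L Sn κ ^ Q.card) * ∏ c ∈ Qᶜ, (X (pB (.inr (.inl (c, Fin.last L)))) *
      ∏ l : Fin L, X (pB (.inr (.inr (.inr (c, l)))))))

lemma sideVal_A (V : A × Fin (ka + 1) → B × Fin (kb + 1) → R) (lam : R) :
    sideVal (C lam : MvPolynomial (GV A B ka kb L Sn κ) R)
        (fun a i => X (pA (.inr (.inl ((a, i), Fin.last L)))) *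
          ∏ l : Fin L, (2 * X (pA (.inr (.inr (.inr ((a, i), l)))))))
        (fun a i => (∏ l, oForm R A B ka kb L Sn κ l) * vForm V (a, i)) =
      ∑ a, ∑ Q ∈ (univ : Finset (Fin (ka + 1))).powerset, TA Sn κ V (inGroup a Q) +
        C lam * TA Sn κ V ∅ := by
  classical
  rw [sideVal_expand]
  refine congrArg₂ (fun p q => p + q) ?_ ?_
  · refine Finset.sum_congr rfl fun a _ => Finset.sum_congr rfl fun Q _ => ?_
    have h := term_A (inGroup a Q)
      (fun r => (X (pA (.inr (.inl (r, Fin.last L)))) : MvPolynomial (GV A B ka kb L Sn κ) R))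
      (fun r => vForm V r) (fun r l => X (pA (.inr (.inr (.inr (r, l))))))
      (∏ l, oForm R A B ka kb L Sn κ l)
    refine h.trans ?_
    unfold TA
    rw [C_mul, C_pow, C_pow, C_neg, map_ofNat]
  · refine congrArg (fun p => C lam * p) ?_
    have h := term_A_univ
      (fun r => (X (pA (.inr (.inl (r, Fin.last L)))) : MvPolynomial (GV A B ka kb L Sn κ) R))
      (fun r l => X (pA (.inr (.inr (.inr (r, l))))))
      (∏ l, oForm R A B ka kb L Sn κ l) (fun r => vForm V r)
    refine h.trans ?_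
    unfold TA
    rw [C_mul, C_pow, C_pow, C_neg, map_ofNat]

lemma sideVal_B (β : Fin L → Fin Sn → Fin (kb + 1) → R) (g : Fin κ → R) :
    sideVal (C 0 : MvPolynomial (GV A B ka kb L Sn κ) R)
        (fun b j => X (pB (.inr (.inl ((b, j), Fin.last L)))) *
          ∏ l : Fin L, (2 * X (pB (.inr (.inr (.inr ((b, j), l)))))))
        (fun b j => (∏ l, gForm A B ka β g l j) * wForm R A B ka kb L Sn κ) =
      ∑ b, ∑ Q ∈ (univ : Finset (Fin (kb + 1))).powerset, TB A ka β g (inGroup b Q) := by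
  classical
  rw [sideVal_expand, map_zero, zero_mul, add_zero]
  refine Finset.sum_congr rfl fun b _ => Finset.sum_congr rfl fun Q _ => ?_
  have h := term_B (inGroup b Q)
    (fun r => (X (pB (.inr (.inl (r, Fin.last L)))) : MvPolynomial (GV A B ka kb L Sn κ) R))
    (fun r => ∏ l, gForm A B ka β g l r.2) (fun r l => X (pB (.inr (.inr (.inr (r, l))))))
    (wForm R A B ka kb L Sn κ)
  refine h.trans ?_
  unfold TB
  rw [C_mul, C_pow, C_pow, C_neg, map_ofNat]

/-- the value of one pair of active sets -/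
noncomputable def val (α : Fin L → Fin Sn → Fin (ka + 1) → R)
    (β : Fin L → Fin Sn → Fin (kb + 1) → R) (g : Fin κ → R)
    (V : A × Fin (ka + 1) → B × Fin (kb + 1) → R)
    (Q : Finset (A × Fin (ka + 1))) (Q' : Finset (B × Fin (kb + 1))) : R :=
  ((-2) ^ Q.card * 2 ^ (L * Qᶜ.card)) * ((-2) ^ Q'.card * 2 ^ (L * Q'ᶜ.card)) *
  ((∑ f : Q → B × Fin (kb + 1), if Function.Injective f ∧ univ.image f = Q' then
      ∏ m : Q, V m (f m) else 0) *
    (if Q'.card = Q.card then (Q'.card.factorial : R) else 0) *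
    ∏ l : Fin L, ((if Q.card = Q'.card then (Q.card.factorial : R) else 0) *
      hubVal (fun s (r : A × Fin (ka + 1)) => α l s r.2)
        (fun s (c : B × Fin (kb + 1)) => β l s c.2) g Q Q'))

lemma free_of {Λ : Type*} [DecidableEq Λ] {I : Type*} (x : I → Λ) (w : Λ) (h : ∀ i, x i ≠ w) :
    (X w : MvPolynomial Λ R) ∈ Free (R := R) (Set.range x) :=
  X_mem_Free (by rintro ⟨i, hi⟩; exact h i hi)

/-- all families together -/
lemma families_eqv (α : Fin L → Fin Sn → Fin (ka + 1) → R)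
    (β : Fin L → Fin Sn → Fin (kb + 1) → R) (g : Fin κ → R)
    (V : A × Fin (ka + 1) → B × Fin (kb + 1) → R)
    (Q : Finset (A × Fin (ka + 1))) (Q' : Finset (B × Fin (kb + 1))) :
    Eqv univ (YS (fun w => (pA w : GV A B ka kb L Sn κ)) ∪
        YS (fun w => (pB w : GV A B ka kb L Sn κ)))ᶜ
      (TA Sn κ V Q * TB A ka β g Q' * hubProd B kb κ α : MvPolynomial (GV A B ka kb L Sn κ) R)
      (C (val α β g V Q Q') * (((∏ c, X (pB (.inr (.inl (c, Fin.last L))))) *
        ∏ r, X (pA (.inr (.inl (r, Fin.last L))))) *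
        ∏ l : Fin L, ((∏ c, X (pB (.inr (.inr (.inr (c, l)))))) *
          ((∏ w : Fin Sn × Fin κ, X (.inr (l, w))) * ∏ r, X (pA (.inr (.inr (.inr (r, l))))))))) := by
  classical
  set xB : B × Fin (kb + 1) → GV A B ka kb L Sn κ := fun c => pB (.inr (.inl (c, Fin.last L)))
    with hxB
  set hA : A × Fin (ka + 1) → GV A B ka kb L Sn κ := fun r => pA (.inr (.inl (r, Fin.last L)))
    with hhA
  set tB : Fin L → B × Fin (kb + 1) → GV A B ka kb L Sn κ :=
    fun l c => pB (.inr (.inr (.inr (c, l)))) with htB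
  set tA : Fin L → A × Fin (ka + 1) → GV A B ka kb L Sn κ :=
    fun l r => pA (.inr (.inr (.inr (r, l)))) with htA
  set uu : Fin L → Fin Sn × Fin κ → GV A B ka kb L Sn κ := fun l w => .inr (l, w) with huu
  have hxBinj : Function.Injective xB := by intro a b h; simpa [hxB] using h
  have hhAinj : Function.Injective hA := by intro a b h; simpa [hhA] using h
  have htBinj : ∀ l, Function.Injective (tB l) := by intro l a b h; simpa [htB] using h
  have htAinj : ∀ l, Function.Injective (tA l) := by intro l a b h; simpa [htA] using h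
  have huinj : ∀ l, Function.Injective (uu l) := by intro l a b h; simpa [huu] using h
  -- the families
  have F1 := forms_eqv (R := R) (μ := Q) (S := univ) xB hxBinj (fun _ => mem_univ _)
    (fun m c => V m c) Q'
  have F2 := pow_eqv (R := R) (S := univ) hA hhAinj (fun _ => mem_univ _) (fun _ => 1) Q'.card Q
  have F3 := fun l => pow_eqv (R := R) (S := univ) (tB l) (htBinj l) (fun _ => mem_univ _)
    (fun _ => 1) Q.card Q'
  have F4 := fun l => hub_eqv (R := R) (S := univ) (uu l) (tA l) (huinj l) (htAinj l)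
    (by intro w i; simp [huu, htA]) (fun _ => mem_univ _) (fun _ => mem_univ _)
    (fun s (r : A × Fin (ka + 1)) => α l s r.2) (fun s (c : B × Fin (kb + 1)) => β l s c.2) g Q Q'
  -- membership facts
  have m1 : ∀ c, (X (xB c) : MvPolynomial (GV A B ka kb L Sn κ) R) ∈
      Free (R := R) (Set.range hA) := fun c => free_of _ _ (by intro i; simp [hhA, hxB])
  have m2 : ∀ l c, (X (xB c) : MvPolynomial (GV A B ka kb L Sn κ) R) ∈
      Free (R := R) (Set.range (tB l)) := fun l c => free_of _ _ (by intro i; simp [htB, hxB])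
  have m3 : ∀ l c, (X (xB c) : MvPolynomial (GV A B ka kb L Sn κ) R) ∈
      Free (R := R) (Set.range (uu l) ∪ Set.range (tA l)) := fun l c => X_mem_Free (by
        rintro (⟨i, h⟩ | ⟨i, h⟩)
        · simp [huu, hxB] at h
        · simp [htA, hxB] at h)
  have m4 : ∀ l r, (X (hA r) : MvPolynomial (GV A B ka kb L Sn κ) R) ∈
      Free (R := R) (Set.range (tB l)) := fun l c => free_of _ _ (by intro i; simp [htB, hhA])
  have m5 : ∀ l r, (X (hA r) : MvPolynomial (GV A B ka kb L Sn κ) R) ∈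
      Free (R := R) (Set.range (uu l) ∪ Set.range (tA l)) := fun l c => X_mem_Free (by
        rintro (⟨i, h⟩ | ⟨i, h⟩)
        · simp [huu, hhA] at h
        · simp [htA, hhA] at h)
  have m6 : ∀ l l' c, (X (tB l' c) : MvPolynomial (GV A B ka kb L Sn κ) R) ∈
      Free (R := R) (Set.range (uu l) ∪ Set.range (tA l)) := fun l l' c => X_mem_Free (by
        rintro (⟨i, h⟩ | ⟨i, h⟩)
        · simp [huu, htB] at h
        · simp [htA, htB] at h)
  have m7 : ∀ l l', l' ≠ l → ∀ c, (X (tB l' c) : MvPolynomial (GV A B ka kb L Sn κ) R) ∈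
      Free (R := R) (Set.range (tB l)) := fun l l' hl c => free_of _ _ (by
        intro i h
        simp only [htB, Sum.inl.injEq, Sum.inr.injEq, Prod.mk.injEq] at h
        exact hl h.2.symm)
  have m8 : ∀ l l' w, (X (uu l' w) : MvPolynomial (GV A B ka kb L Sn κ) R) ∈
      Free (R := R) (Set.range (tB l)) := fun l l' w => free_of _ _ (by intro i; simp [htB, huu])
  have m9 : ∀ l l' r, (X (tA l' r) : MvPolynomial (GV A B ka kb L Sn κ) R) ∈
      Free (R := R) (Set.range (tB l)) := fun l l' w => free_of _ _ (by intro i; simp [htB, htA])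
  have m10 : ∀ l l', l' ≠ l → ∀ w, (X (uu l' w) : MvPolynomial (GV A B ka kb L Sn κ) R) ∈
      Free (R := R) (Set.range (uu l) ∪ Set.range (tA l)) := fun l l' hl w => X_mem_Free (by
        rintro (⟨i, h⟩ | ⟨i, h⟩)
        · simp only [huu, Sum.inr.injEq, Prod.mk.injEq] at h
          exact hl h.1.symm
        · simp [htA, huu] at h)
  have m11 : ∀ l l', l' ≠ l → ∀ w, (X (tA l' w) : MvPolynomial (GV A B ka kb L Sn κ) R) ∈
      Free (R := R) (Set.range (uu l) ∪ Set.range (tA l)) := fun l l' hl w => X_mem_Free (by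
        rintro (⟨i, h⟩ | ⟨i, h⟩)
        · simp [huu, htA] at h
        · simp only [htA, Sum.inl.injEq, Sum.inr.injEq, Prod.mk.injEq] at h
          exact hl h.2.symm)
  -- combine F3 and F4 for one level
  have F34 : ∀ l, Eqv univ (Set.range (tB l) ∪ (Set.range (uu l) ∪ Set.range (tA l)))
      (((∑ i, C 1 * X (tB l i)) ^ Q.card * ∏ i ∈ Q'ᶜ, X (tB l i)) *
        (((∏ c ∈ Q', ∑ s, C (β l s c.2) * ∑ q, C (g q) * X (uu l (s, q))) *
        ∏ s, ∏ q, (X (uu l (s, q)) + ∑ i : A × Fin (ka + 1), C (α l s i.2) * X (tA l i))) *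
          ∏ i ∈ Qᶜ, X (tA l i)))
      ((C (if Q.card = Q'.card then (Q.card.factorial : R) * ∏ i ∈ Q', 1 else 0) *
        ∏ i, X (tB l i)) *
        (C (hubVal (fun s (r : A × Fin (ka + 1)) => α l s r.2)
        (fun s (c : B × Fin (kb + 1)) => β l s c.2) g Q Q') *
          ((∏ w, X (uu l w)) * ∏ i, X (tA l i)))) := by
    intro l
    refine Eqv.mul (F3 l) (F4 l) ?_ ?_
    · refine mul_mem (mul_mem (prod_mem fun c _ => sum_mem fun s _ => mul_mem (C_mem_Free _ _)
        (sum_mem fun q _ => mul_mem (C_mem_Free _ _) (m8 l l _))) (prod_mem fun s _ =>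
        prod_mem fun q _ => add_mem (m8 l l _) (sum_mem fun i _ => mul_mem (C_mem_Free _ _)
        (m9 l l _)))) (prod_mem fun i _ => m9 l l _)
    · exact mul_mem (C_mem_Free _ _) (prod_mem fun i _ => m6 l l _)
  have F5 := Eqv.prod (S := univ) (univ : Finset (Fin L)) (fun l _ => F34 l)
    (by
      intro l _ l' _ hl
      have n1 : ∀ c, (X (tB l' c) : MvPolynomial (GV A B ka kb L Sn κ) R) ∈
          Free (R := R) (Set.range (tB l) ∪ (Set.range (uu l) ∪ Set.range (tA l))) := fun c =>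
        X_mem_Free (by
          rintro (⟨i, h⟩ | ⟨i, h⟩ | ⟨i, h⟩)
          · simp only [htB, Sum.inl.injEq, Sum.inr.injEq, Prod.mk.injEq] at h
            exact hl h.2.symm
          · simp [huu, htB] at h
          · simp [htA, htB] at h)
      have n2 : ∀ w, (X (uu l' w) : MvPolynomial (GV A B ka kb L Sn κ) R) ∈
          Free (R := R) (Set.range (tB l) ∪ (Set.range (uu l) ∪ Set.range (tA l))) := fun c =>
        X_mem_Free (by
          rintro (⟨i, h⟩ | ⟨i, h⟩ | ⟨i, h⟩)
          · simp [htB, huu] at h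
          · simp only [huu, Sum.inr.injEq, Prod.mk.injEq] at h
            exact hl h.1.symm
          · simp [htA, huu] at h)
      have n3 : ∀ r, (X (tA l' r) : MvPolynomial (GV A B ka kb L Sn κ) R) ∈
          Free (R := R) (Set.range (tB l) ∪ (Set.range (uu l) ∪ Set.range (tA l))) := fun c =>
        X_mem_Free (by
          rintro (⟨i, h⟩ | ⟨i, h⟩ | ⟨i, h⟩)
          · simp [htB, htA] at h
          · simp [huu, htA] at h
          · simp only [htA, Sum.inl.injEq, Sum.inr.injEq, Prod.mk.injEq] at h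
            exact hl h.2.symm)
      exact mul_mem (mul_mem (pow_mem (sum_mem fun i _ => mul_mem (C_mem_Free _ _) (n1 _)) _)
        (prod_mem fun i _ => n1 _)) (mul_mem (mul_mem (prod_mem fun c _ => sum_mem fun s _ =>
        mul_mem (C_mem_Free _ _) (sum_mem fun q _ => mul_mem (C_mem_Free _ _) (n2 _)))
        (prod_mem fun s _ => prod_mem fun q _ => add_mem (n2 _) (sum_mem fun i _ =>
        mul_mem (C_mem_Free _ _) (n3 _)))) (prod_mem fun i _ => n3 _)))
    (by
      intro l _ l' _ hl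
      have n1 : ∀ c, (X (tB l' c) : MvPolynomial (GV A B ka kb L Sn κ) R) ∈
          Free (R := R) (Set.range (tB l) ∪ (Set.range (uu l) ∪ Set.range (tA l))) := fun c =>
        X_mem_Free (by
          rintro (⟨i, h⟩ | ⟨i, h⟩ | ⟨i, h⟩)
          · simp only [htB, Sum.inl.injEq, Sum.inr.injEq, Prod.mk.injEq] at h
            exact hl h.2.symm
          · simp [huu, htB] at h
          · simp [htA, htB] at h)
      have n2 : ∀ w, (X (uu l' w) : MvPolynomial (GV A B ka kb L Sn κ) R) ∈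
          Free (R := R) (Set.range (tB l) ∪ (Set.range (uu l) ∪ Set.range (tA l))) := fun c =>
        X_mem_Free (by
          rintro (⟨i, h⟩ | ⟨i, h⟩ | ⟨i, h⟩)
          · simp [htB, huu] at h
          · simp only [huu, Sum.inr.injEq, Prod.mk.injEq] at h
            exact hl h.1.symm
          · simp [htA, huu] at h)
      have n3 : ∀ r, (X (tA l' r) : MvPolynomial (GV A B ka kb L Sn κ) R) ∈
          Free (R := R) (Set.range (tB l) ∪ (Set.range (uu l) ∪ Set.range (tA l))) := fun c =>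
        X_mem_Free (by
          rintro (⟨i, h⟩ | ⟨i, h⟩ | ⟨i, h⟩)
          · simp [htB, htA] at h
          · simp [huu, htA] at h
          · simp only [htA, Sum.inl.injEq, Sum.inr.injEq, Prod.mk.injEq] at h
            exact hl h.2.symm)
      exact mul_mem (mul_mem (C_mem_Free _ _) (prod_mem fun i _ => n1 _))
        (mul_mem (C_mem_Free _ _) (mul_mem (prod_mem fun i _ => n2 _)
          (prod_mem fun i _ => n3 _))))
  have F12 := Eqv.mul F1 F2
    (mul_mem (pow_mem (sum_mem fun i _ => mul_mem (C_mem_Free _ _) (free_of _ _ (by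
      intro i; simp [hxB, hhA]))) _) (prod_mem fun i _ => free_of _ _ (by
      intro i; simp [hxB, hhA])))
    (mul_mem (C_mem_Free _ _) (prod_mem fun i _ => m1 _))
  have F := Eqv.mul F12 F5
    (by
      have n1 : ∀ l c, (X (tB l c) : MvPolynomial (GV A B ka kb L Sn κ) R) ∈
          Free (R := R) (Set.range xB ∪ Set.range hA) := fun l c =>
        X_mem_Free (by
          rintro (⟨i, h⟩ | ⟨i, h⟩)
          · simp [htB, hxB] at h
          · simp [htB, hhA] at h)
      have n2 : ∀ l w, (X (uu l w) : MvPolynomial (GV A B ka kb L Sn κ) R) ∈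
          Free (R := R) (Set.range xB ∪ Set.range hA) := fun l c =>
        X_mem_Free (by
          rintro (⟨i, h⟩ | ⟨i, h⟩)
          · simp [huu, hxB] at h
          · simp [huu, hhA] at h)
      have n3 : ∀ l w, (X (tA l w) : MvPolynomial (GV A B ka kb L Sn κ) R) ∈
          Free (R := R) (Set.range xB ∪ Set.range hA) := fun l c =>
        X_mem_Free (by
          rintro (⟨i, h⟩ | ⟨i, h⟩)
          · simp [htA, hxB] at h
          · simp [htA, hhA] at h)
      exact prod_mem fun l _ =>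
        mul_mem (mul_mem (pow_mem (sum_mem fun i _ => mul_mem (C_mem_Free _ _) (n1 _ _)) _)
        (prod_mem fun i _ => n1 _ _)) (mul_mem (mul_mem (prod_mem fun c _ => sum_mem fun s _ =>
        mul_mem (C_mem_Free _ _) (sum_mem fun q _ => mul_mem (C_mem_Free _ _) (n2 _ _)))
        (prod_mem fun s _ => prod_mem fun q _ => add_mem (n2 _ _) (sum_mem fun i _ =>
        mul_mem (C_mem_Free _ _) (n3 _ _)))) (prod_mem fun i _ => n3 _ _)))
    (by
      have n1 : ∀ c, (X (xB c) : MvPolynomial (GV A B ka kb L Sn κ) R) ∈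
          Free (R := R) (⋃ l ∈ (univ : Finset (Fin L)),
            (Set.range (tB l) ∪ (Set.range (uu l) ∪ Set.range (tA l)))) := fun c =>
        X_mem_Free (by
          rw [Set.mem_iUnion₂]
          rintro ⟨l, _, ⟨i, h⟩ | ⟨i, h⟩ | ⟨i, h⟩⟩
          · simp [htB, hxB] at h
          · simp [huu, hxB] at h
          · simp [htA, hxB] at h)
      have n2 : ∀ c, (X (hA c) : MvPolynomial (GV A B ka kb L Sn κ) R) ∈
          Free (R := R) (⋃ l ∈ (univ : Finset (Fin L)),
            (Set.range (tB l) ∪ (Set.range (uu l) ∪ Set.range (tA l)))) := fun c =>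
        X_mem_Free (by
          rw [Set.mem_iUnion₂]
          rintro ⟨l, _, ⟨i, h⟩ | ⟨i, h⟩ | ⟨i, h⟩⟩
          · simp [htB, hhA] at h
          · simp [huu, hhA] at h
          · simp [htA, hhA] at h)
      exact mul_mem (mul_mem (C_mem_Free _ _) (prod_mem fun i _ => n1 _))
        (mul_mem (C_mem_Free _ _) (prod_mem fun i _ => n2 _)))
  have hpAinj : Function.Injective (fun w => (pA w : GV A B ka kb L Sn κ)) := by
    intro a b h; simpa using h
  have hpBinj : Function.Injective (fun w => (pB w : GV A B ka kb L Sn κ)) := by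
    intro a b h; simpa using h
  have hYsub : (Set.range xB ∪ Set.range hA ∪ ⋃ l ∈ (univ : Finset (Fin L)),
      (Set.range (tB l) ∪ (Set.range (uu l) ∪ Set.range (tA l)))) ⊆
      (YS (fun w => (pA w : GV A B ka kb L Sn κ)) ∪
        YS (fun w => (pB w : GV A B ka kb L Sn κ)))ᶜ := by
    intro y hy hy2
    have hAno : ∀ w, (pB w : GV A B ka kb L Sn κ) ∉ YS (fun w => (pA w : GV A B ka kb L Sn κ)) := by
      intro w hw
      obtain ⟨w', h⟩ := YS_sub _ hw
      simp at h
    have hBno : ∀ w, (pA w : GV A B ka kb L Sn κ) ∉ YS (fun w => (pB w : GV A B ka kb L Sn κ)) := by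
      intro w hw
      obtain ⟨w', h⟩ := YS_sub _ hw
      simp at h
    have huno : ∀ w, (.inr w : GV A B ka kb L Sn κ) ∉
        YS (fun w => (pA w : GV A B ka kb L Sn κ)) := by
      intro w hw
      obtain ⟨w', h⟩ := YS_sub _ hw
      simp at h
    have huno' : ∀ w, (.inr w : GV A B ka kb L Sn κ) ∉
        YS (fun w => (pB w : GV A B ka kb L Sn κ)) := by
      intro w hw
      obtain ⟨w', h⟩ := YS_sub _ hw
      simp at h
    rcases hy with (⟨i, rfl⟩ | ⟨i, rfl⟩) | hy
    · rcases hy2 with h | h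
      · exact hAno _ h
      · exact hL_not_YS _ hpBinj _ h
    · rcases hy2 with h | h
      · exact hL_not_YS _ hpAinj _ h
      · exact hBno _ h
    · rw [Set.mem_iUnion₂] at hy
      obtain ⟨l, _, ⟨i, rfl⟩ | ⟨i, rfl⟩ | ⟨i, rfl⟩⟩ := hy
      · rcases hy2 with h | h
        · exact hAno _ h
        · exact t_not_YS _ hpBinj _ h
      · rcases hy2 with h | h
        · exact huno _ h
        · exact huno' _ h
      · rcases hy2 with h | h
        · exact t_not_YS _ hpAinj _ h
        · exact hBno _ h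
  have G := (F.mul_left (C_mem_Free (R := R) _
    (((-2) ^ Q.card * 2 ^ (L * Qᶜ.card)) * ((-2) ^ Q'.card * 2 ^ (L * Q'ᶜ.card))))).mono
    hYsub
  refine Eqv.trans (Eqv.of_eq ?_) (G.trans (Eqv.of_eq ?_))
  · have e1 : (∏ m : Q, ∑ i, C (V m i) * X (xB i)) =
        ∏ r ∈ Q, (vForm V r : MvPolynomial (GV A B ka kb L Sn κ) R) :=
      Finset.prod_coe_sort Q (fun r => (vForm V r : MvPolynomial (GV A B ka kb L Sn κ) R))
    have e2 : (∑ i, C (1 : R) * X (hA i)) = wForm R A B ka kb L Sn κ := by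
      unfold wForm
      simp only [map_one, one_mul, hhA]
    have e3 : ∀ l, (∑ i, C (1 : R) * X (tB l i)) = oForm R A B ka kb L Sn κ l := by
      intro l
      unfold oForm
      simp only [map_one, one_mul, htB]
    rw [e1, e2]
    simp only [e3]
    have h := rearr Q Q' (C ((-2) ^ Q.card * 2 ^ (L * Qᶜ.card)) :
        MvPolynomial (GV A B ka kb L Sn κ) R) (C ((-2) ^ Q'.card * 2 ^ (L * Q'ᶜ.card)))
      (fun l => oForm R A B ka kb L Sn κ l) (fun r => vForm V r) (fun r => X (hA r))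
      (fun r l => X (tA l r)) (fun c l => gForm A B ka β g l c.2) (wForm R A B ka kb L Sn κ)
      (fun c => X (xB c)) (fun c l => X (tB l c))
      (fun l => ∏ s, ∏ q, (X (uu l (s, q)) + ∑ i : A × Fin (ka + 1), C (α l s i.2) * X (tA l i)))
      Q.card Q'.card
    rw [C_mul (a := (-2) ^ Q.card * 2 ^ (L * Qᶜ.card))]
    exact h
  · refine (rearr2 _ _ _ _ _ _ _ _ _).trans ?_
    unfold val
    rw [C_mul (a := ((-2) ^ Q.card * 2 ^ (L * Qᶜ.card)) * ((-2) ^ Q'.card * 2 ^ (L * Q'ᶜ.card))),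
      C_mul (a := (∑ f : Q → B × Fin (kb + 1), if Function.Injective f ∧ univ.image f = Q' then
      ∏ m : Q, V m (f m) else 0) * (if Q'.card = Q.card then (Q'.card.factorial : R) else 0)),
      C_mul (a := (∑ f : Q → B × Fin (kb + 1), if Function.Injective f ∧ univ.image f = Q' then
      ∏ m : Q, V m (f m) else 0)), map_prod]
    simp only [Finset.prod_const_one, mul_one, C_mul]
    rfl

end eval

end Pool.Agent.Work.MP_499dc6_lc.Gadget
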