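import Pool.Agent.Work.MP_499dc6_lc.Gadget.Hub

/-!
The matrix of the gadget.
-/

set_option linter.unusedSectionVars false

namespace Pool.Agent.Work.MP_499dc6_lc.Gadget

open MvPolynomial Finset

section lin

variable {R : Type*} [CommRing R] {Λ : Type*} [DecidableEq Λ] [Fintype Λ]

/-- the linear form with given coefficients -/
noncomputable def lin (f : Λ → R) : MvPolynomial Λ R := ∑ c, C (f c) * X c

lemma lin_add (f g : Λ → R) : lin (f + g) = lin f + lin g := by
  unfold lin
  simp only [Pi.add_apply, map_add, add_mul, Finset.sum_add_distrib]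

lemma lin_sub (f g : Λ → R) : lin (f - g) = lin f - lin g := by
  unfold lin
  simp only [Pi.sub_apply, map_sub, sub_mul, Finset.sum_sub_distrib]

lemma lin_single (c : Λ) (a : R) : lin (Pi.single c a) = C a * X c := by
  unfold lin
  rw [Fintype.sum_eq_single c]
  · rw [Pi.single_eq_same]
  · intro c' hc'
    rw [Pi.single_eq_of_ne hc', map_zero, zero_mul]

lemma lin_single_one (c : Λ) : lin (Pi.single c (1 : R)) = X c := by
  rw [lin_single, map_one, one_mul]

lemma lin_sum {ι : Type*} (s : Finset ι) (f : ι → Λ → R) :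
    lin (∑ i ∈ s, f i) = ∑ i ∈ s, lin (f i) := by
  unfold lin
  simp only [Finset.sum_apply, map_sum, Finset.sum_mul]
  rw [Finset.sum_comm]

/-- the permanent as a coefficient of the product of the row forms -/
lemma top_prod_lin (M : Matrix Λ Λ R) : top univ (∏ r, lin (M r)) = M.permanent := by
  classical
  have h1 : (∏ r, lin (M r)) = ∑ p : Λ → Λ, (∏ r, C (M r (p r))) * ∏ r, X (p r) := by
    unfold lin
    rw [Finset.prod_univ_sum, Fintype.piFinset_univ]
    refine Finset.sum_congr rfl fun p _ => ?_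
    rw [Finset.prod_mul_distrib]
  rw [h1, map_sum]
  have h2 : ∀ p : Λ → Λ, ¬ Function.Injective p →
      top univ ((∏ r, C (M r (p r))) * ∏ r, X (p r)) = 0 := by
    intro p hp
    have := Eqv.noninj (R := R) (S := univ) (Y := (∅ : Set Λ)) (fun c : Λ => c) p hp
      (∏ r, C (M r (p r))) 1 (one_mem _)
    rw [mul_one, mul_one, map_zero] at this
    rw [mul_comm]
    exact this
  have h3 : ∀ p : Equiv.Perm Λ, top univ ((∏ r, C (M r (p r))) * ∏ r, X (p r)) =
      ∏ r, M r (p r) := by
    intro p
    have h4 : (∏ r, X (p r) : MvPolynomial Λ R) = ∏ r, X r := Equiv.prod_comp p (fun r => X r)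
    rw [h4, ← map_prod, top_apply, coeff_C_mul]
    have h5 := top_shift_prod (R := R) (S := (∅ : Finset Λ)) (T := univ) (by simp) 1
    rw [Finset.union_empty, mul_one, top_apply, top_apply] at h5
    rw [h5]
    have : ind (∅ : Finset Λ) = 0 := by unfold ind; simp
    rw [this, coeff_zero_one, mul_one]
  rw [← Finset.sum_subset (Finset.subset_univ (univ.image fun (σ : Equiv.Perm Λ) =>
    (σ : Λ → Λ)))]
  · rw [Finset.sum_image (fun σ _ τ _ h => DFunLike.coe_injective h)]
    rw [← Matrix.permanent_transpose]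
    unfold Matrix.permanent
    exact Finset.sum_congr rfl fun σ _ => h3 σ
  · intro p _ hp
    apply h2
    intro hinj
    apply hp
    rw [Finset.mem_image]
    exact ⟨Equiv.ofBijective p (Finite.injective_iff_bijective.mp hinj), mem_univ _, rfl⟩

end lin

section side

variable {R : Type*} [CommRing R] {Λ : Type*} [DecidableEq Λ] [Fintype Λ]
variable {A : Type*} [Fintype A] [DecidableEq A]

/-- the rows of one side -/
noncomputable def sideRow {k L : ℕ} (p : SideV A k L → Λ) (lam : R)
    (v : A → Fin (k + 1) → Λ → R) (o : Fin L → A → Fin (k + 1) → Λ → R) :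
    SideV A k L → Λ → R
  | .inl (.inl (.inl _)) => ∑ a, Pi.single (p (.inl (.inl (.inr (a, 0))))) 1
      + Pi.single (p (.inl (.inl (.inl ())))) lam
  | .inl (.inl (.inr (a, j))) => Fin.lastCases (motive := fun _ => Λ → R)
      (Pi.single (p (.inl (.inl (.inr (a, Fin.last (k + 1)))))) 1 +
        Pi.single (p (.inl (.inl (.inl ())))) 1)
      (fun i => Pi.single (p (.inl (.inl (.inr (a, i.castSucc))))) 1 +
        Pi.single (p (.inl (.inr (.inl (a, i))))) 1 -
        Pi.single (p (.inl (.inr (.inr (a, i))))) 1) j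
  | .inl (.inr (.inl (a, i))) => Pi.single (p (.inl (.inr (.inl (a, i))))) 1 +
      Pi.single (p (.inl (.inl (.inr (a, i.succ))))) 1 +
      Pi.single (p (.inl (.inr (.inr (a, i))))) 1
  | .inl (.inr (.inr (a, i))) => Pi.single (p (.inl (.inr (.inr (a, i))))) 1 + v a i
  | .inr (.inl (r, l)) => Fin.cases (motive := fun _ => Λ → R)
      (Pi.single (p (.inr (.inl (r, 0)))) 1 + Pi.single (p (.inl (.inr (.inl r)))) 1 -
        Pi.single (p (.inl (.inl (.inr (r.1, r.2.succ))))) 1 -
        Pi.single (p (.inl (.inr (.inr r)))) 1)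
      (fun l' => Pi.single (p (.inr (.inr (.inl (r, l'))))) 1 +
        Pi.single (p (.inr (.inr (.inr (r, l'))))) 1 +
        Pi.single (p (.inr (.inl (r, l'.succ)))) 1) l
  | .inr (.inr (.inl (r, l))) => Pi.single (p (.inr (.inr (.inr (r, l))))) 1 +
      Pi.single (p (.inr (.inl (r, l.succ)))) 1 + o l r.1 r.2 -
      Pi.single (p (.inr (.inr (.inl (r, l))))) 1
  | .inr (.inr (.inr (r, l))) => Pi.single (p (.inr (.inr (.inl (r, l))))) 1 +
      Pi.single (p (.inr (.inl (r, l.castSucc)))) 1 -
      Pi.single (p (.inr (.inr (.inr (r, l))))) 1 -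
      Pi.single (p (.inr (.inl (r, l.succ)))) 1

lemma prod_rearrange {M : Type*} [CommRing M] (T E l Y Z H0 H1 Q W : M) :
    T * (E * l) * (Y * Z) * (H0 * H1 * (Q * W)) =
      T * (l * (E * Y * H0 * Z)) * (Q * H1 * W) := by ring

lemma sideRow_prod {k L : ℕ} (p : SideV A k L → Λ) (lam : R)
    (v : A → Fin (k + 1) → Λ → R) (o : Fin L → A → Fin (k + 1) → Λ → R) :
    ∏ w, lin (sideRow p lam v o w) =
      sideProd (fun w => p (.inl w)) (C lam) (fun a i => X (p (.inr (.inl ((a, i), 0)))))
        (fun a i => lin (v a i)) * copyProd p (fun l a i => lin (o l a i)) := by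
  classical
  have hT : lin (sideRow p lam v o (.inl (.inl (.inl ())))) =
      ∑ a, X (p (.inl (.inl (.inr (a, 0))))) + C lam * X (p (.inl (.inl (.inl ())))) := by
    simp only [sideRow, lin_add, lin_sum, lin_single, map_one, one_mul]
  have hE : ∀ a (i : Fin (k + 1)), lin (sideRow p lam v o (.inl (.inl (.inr (a, i.castSucc))))) =
      X (p (.inl (.inl (.inr (a, i.castSucc))))) + X (p (.inl (.inr (.inl (a, i))))) -
        X (p (.inl (.inr (.inr (a, i))))) := by
    intro a i
    simp only [sideRow, Fin.lastCases_castSucc, lin_add, lin_sub, lin_single, map_one, one_mul]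
  have hl : ∀ a, lin (sideRow p lam v o (.inl (.inl (.inr (a, Fin.last (k + 1)))))) =
      X (p (.inl (.inl (.inr (a, Fin.last (k + 1)))))) + X (p (.inl (.inl (.inl ())))) := by
    intro a
    simp only [sideRow, Fin.lastCases_last, lin_add, lin_single, map_one, one_mul]
  have hY : ∀ a i, lin (sideRow p lam v o (.inl (.inr (.inl (a, i))))) =
      X (p (.inl (.inr (.inl (a, i))))) + X (p (.inl (.inl (.inr (a, i.succ))))) +
        X (p (.inl (.inr (.inr (a, i))))) := by
    intro a i
    simp only [sideRow, lin_add, lin_single, map_one, one_mul]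
  have hZ : ∀ a i, lin (sideRow p lam v o (.inl (.inr (.inr (a, i))))) =
      X (p (.inl (.inr (.inr (a, i))))) + lin (v a i) := by
    intro a i
    simp only [sideRow, lin_add, lin_single, map_one, one_mul]
  have hH0 : ∀ r : A × Fin (k + 1), lin (sideRow p lam v o (.inr (.inl (r, 0)))) =
      X (p (.inr (.inl (r, 0)))) + X (p (.inl (.inr (.inl r)))) -
        X (p (.inl (.inl (.inr (r.1, r.2.succ))))) - X (p (.inl (.inr (.inr r)))) := by
    intro r
    simp only [sideRow, Fin.cases_zero, lin_add, lin_sub, lin_single, map_one, one_mul]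
  have hH1 : ∀ (r : A × Fin (k + 1)) (l : Fin L), lin (sideRow p lam v o (.inr (.inl (r, l.succ)))) =
      X (p (.inr (.inr (.inl (r, l))))) + X (p (.inr (.inr (.inr (r, l))))) +
        X (p (.inr (.inl (r, l.succ)))) := by
    intro r l
    simp only [sideRow, Fin.cases_succ, lin_add, lin_single, map_one, one_mul]
  have hQ : ∀ (r : A × Fin (k + 1)) (l : Fin L), lin (sideRow p lam v o (.inr (.inr (.inl (r, l))))) =
      X (p (.inr (.inr (.inr (r, l))))) + X (p (.inr (.inl (r, l.succ)))) + lin (o l r.1 r.2) -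
        X (p (.inr (.inr (.inl (r, l))))) := by
    intro r l
    simp only [sideRow, lin_add, lin_sub, lin_single, map_one, one_mul]
  have hW : ∀ (r : A × Fin (k + 1)) (l : Fin L), lin (sideRow p lam v o (.inr (.inr (.inr (r, l))))) =
      X (p (.inr (.inr (.inl (r, l))))) + X (p (.inr (.inl (r, l.castSucc)))) -
        X (p (.inr (.inr (.inr (r, l))))) - X (p (.inr (.inl (r, l.succ)))) := by
    intro r l
    simp only [sideRow, lin_add, lin_sub, lin_single, map_one, one_mul]
  have e1 : (∏ w : A × Fin (k + 2), lin (sideRow p lam v o (.inl (.inl (.inr w))))) =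
      (∏ r : A × Fin (k + 1), (X (p (.inl (.inl (.inr (r.1, r.2.castSucc))))) +
        X (p (.inl (.inr (.inl r)))) - X (p (.inl (.inr (.inr r)))))) *
      ∏ a, (X (p (.inl (.inl (.inr (a, Fin.last (k + 1)))))) + X (p (.inl (.inl (.inl ()))))) := by
    rw [Fintype.prod_prod_type, Fintype.prod_prod_type, ← Finset.prod_mul_distrib]
    refine Finset.prod_congr rfl fun a _ => ?_
    rw [Fin.prod_univ_castSucc, hl]
    congr 1
    exact Finset.prod_congr rfl fun i _ => hE a i
  have e2 : (∏ w : (A × Fin (k + 1)) × Fin (L + 1), lin (sideRow p lam v o (.inr (.inl w)))) =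
      (∏ r : A × Fin (k + 1), (X (p (.inr (.inl (r, 0)))) + X (p (.inl (.inr (.inl r)))) -
        X (p (.inl (.inl (.inr (r.1, r.2.succ))))) - X (p (.inl (.inr (.inr r)))))) *
      ∏ r : A × Fin (k + 1), ∏ l : Fin L, (X (p (.inr (.inr (.inl (r, l))))) +
        X (p (.inr (.inr (.inr (r, l))))) + X (p (.inr (.inl (r, l.succ))))) := by
    rw [Fintype.prod_prod_type, ← Finset.prod_mul_distrib]
    refine Finset.prod_congr rfl fun r _ => ?_
    rw [Fin.prod_univ_succ, hH0]
    congr 1
    exact Finset.prod_congr rfl fun l _ => hH1 r l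
  have e3 : (∏ w : (A × Fin (k + 1)) × Fin L, lin (sideRow p lam v o (.inr (.inr (.inl w))))) =
      ∏ r : A × Fin (k + 1), ∏ l : Fin L, (X (p (.inr (.inr (.inr (r, l))))) +
        X (p (.inr (.inl (r, l.succ)))) + lin (o l r.1 r.2) -
        X (p (.inr (.inr (.inl (r, l)))))) := by
    rw [Fintype.prod_prod_type]
    exact Finset.prod_congr rfl fun r _ => Finset.prod_congr rfl fun l _ => hQ r l
  have e4 : (∏ w : (A × Fin (k + 1)) × Fin L, lin (sideRow p lam v o (.inr (.inr (.inr w))))) =
      ∏ r : A × Fin (k + 1), ∏ l : Fin L, (X (p (.inr (.inr (.inl (r, l))))) +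
        X (p (.inr (.inl (r, l.castSucc)))) -
        X (p (.inr (.inr (.inr (r, l))))) - X (p (.inr (.inl (r, l.succ))))) := by
    rw [Fintype.prod_prod_type]
    exact Finset.prod_congr rfl fun r _ => Finset.prod_congr rfl fun l _ => hW r l
  have e5 : (∏ w : A × Fin (k + 1), lin (sideRow p lam v o (.inl (.inr (.inl w))))) =
      ∏ r : A × Fin (k + 1), (X (p (.inl (.inr (.inl r)))) +
        X (p (.inl (.inl (.inr (r.1, r.2.succ))))) + X (p (.inl (.inr (.inr r))))) :=
    Finset.prod_congr rfl fun r _ => hY r.1 r.2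
  have e6 : (∏ w : A × Fin (k + 1), lin (sideRow p lam v o (.inl (.inr (.inr w))))) =
      ∏ r : A × Fin (k + 1), (X (p (.inl (.inr (.inr r)))) + lin (v r.1 r.2)) :=
    Finset.prod_congr rfl fun r _ => hZ r.1 r.2
  rw [Fintype.prod_sum_type, Fintype.prod_sum_type (α₁ := Unit ⊕ (A × Fin (k + 2))),
    Fintype.prod_sum_type (α₁ := Unit), Fintype.prod_sum_type (α₁ := A × Fin (k + 1)),
    Fintype.prod_sum_type (α₁ := (A × Fin (k + 1)) × Fin (L + 1)),
    Fintype.prod_sum_type (α₁ := (A × Fin (k + 1)) × Fin L),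
    e1, e2, e3, e4, e5, e6, Fintype.prod_unique]
  change lin (sideRow p lam v o (.inl (.inl (.inl ())))) * _ * _ * _ = _
  rw [hT, prod_rearrange]
  have e7 : sideProd (fun w => p (.inl w)) (C lam) (fun a i => X (p (.inr (.inl ((a, i), 0)))))
        (fun a i => lin (v a i)) =
      (∑ a, X (p (.inl (.inl (.inr (a, 0))))) + C lam * X (p (.inl (.inl (.inl ()))))) *
      ((∏ a, (X (p (.inl (.inl (.inr (a, Fin.last (k + 1)))))) + X (p (.inl (.inl (.inl ())))))) *
        ((∏ r : A × Fin (k + 1), (X (p (.inl (.inl (.inr (r.1, r.2.castSucc))))) +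
        X (p (.inl (.inr (.inl r)))) - X (p (.inl (.inr (.inr r)))))) *
        (∏ r : A × Fin (k + 1), (X (p (.inl (.inr (.inl r)))) +
        X (p (.inl (.inl (.inr (r.1, r.2.succ))))) + X (p (.inl (.inr (.inr r)))))) *
        (∏ r : A × Fin (k + 1), (X (p (.inr (.inl (r, 0)))) + X (p (.inl (.inr (.inl r)))) -
        X (p (.inl (.inl (.inr (r.1, r.2.succ))))) - X (p (.inl (.inr (.inr r)))))) *
        ∏ r : A × Fin (k + 1), (X (p (.inl (.inr (.inr r)))) + lin (v r.1 r.2)))) := by
    unfold sideProd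
    rw [Finset.prod_mul_distrib]
    congr 2
    rw [← Finset.prod_mul_distrib, ← Finset.prod_mul_distrib, ← Finset.prod_mul_distrib,
      Fintype.prod_prod_type]
    rfl
  have e8 : copyProd p (fun l a i => lin (o l a i)) =
      (∏ r : A × Fin (k + 1), ∏ l : Fin L, (X (p (.inr (.inr (.inr (r, l))))) +
        X (p (.inr (.inl (r, l.succ)))) + lin (o l r.1 r.2) -
        X (p (.inr (.inr (.inl (r, l))))))) *
      (∏ r : A × Fin (k + 1), ∏ l : Fin L, (X (p (.inr (.inr (.inl (r, l))))) +
        X (p (.inr (.inr (.inr (r, l))))) + X (p (.inr (.inl (r, l.succ)))))) *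
      ∏ r : A × Fin (k + 1), ∏ l : Fin L, (X (p (.inr (.inr (.inl (r, l))))) +
        X (p (.inr (.inl (r, l.castSucc)))) -
        X (p (.inr (.inr (.inr (r, l))))) - X (p (.inr (.inl (r, l.succ))))) := by
    unfold copyProd copyRows
    rw [← Finset.prod_mul_distrib, ← Finset.prod_mul_distrib]
    refine Finset.prod_congr rfl fun r _ => ?_
    rw [← Finset.prod_mul_distrib, ← Finset.prod_mul_distrib]
  rw [e7, e8]

end side

end Pool.Agent.Work.MP_499dc6_lc.Gadget
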