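import Pool.Agent.Work.MP_499dc6_lc.Gadget.Basic

/-!
The cell of the selection gadget, and a chain of cells.
-/

set_option linter.unusedSectionVars false

namespace Pool.Agent.Work.MP_499dc6_lc.Gadget

open MvPolynomial Finset

variable {R : Type*} [CommRing R] {Λ : Type*} [DecidableEq Λ]

/-- elimination of the two private columns of a cell -/
lemma cell_eqv {S : Finset Λ} {y z e : Λ} (hy : y ∈ S) (hz : z ∈ S) (hyz : y ≠ z)
    (hey : e ≠ y) (hez : e ≠ z) {E H v : MvPolynomial Λ R}
    (hE : E ∈ Free (R := R) {y, z}) (hH : H ∈ Free (R := R) {y, z})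
    (hv : v ∈ Free (R := R) {y, z}) :
    Eqv S {y, z}
      ((E + X y - X z) * (X y + X e + X z) * (H + X y - X e - X z) * (X z + v))
      (X y * X z * (E * H + X e * (H - 2 * v))) := by
  have hy1 : ({y} : Set Λ) ⊆ {y, z} := by intro a ha; simp at ha ⊢; exact Or.inl ha
  have hz1 : ({z} : Set Λ) ⊆ {y, z} := by intro a ha; simp at ha ⊢; exact Or.inr ha
  have hEy := Free_mono hy1 hE
  have hHy := Free_mono hy1 hH
  have hvy := Free_mono hy1 hv
  have hEz := Free_mono hz1 hE
  have hHz := Free_mono hz1 hH
  have hvz := Free_mono hz1 hv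
  have hXe_y : (X e : MvPolynomial Λ R) ∈ Free (R := R) {y} := X_mem_Free (by simpa using hey)
  have hXe_z : (X e : MvPolynomial Λ R) ∈ Free (R := R) {z} := X_mem_Free (by simpa using hez)
  have hXz_y : (X z : MvPolynomial Λ R) ∈ Free (R := R) {y} := X_mem_Free (by simpa using hyz.symm)
  have hXy_z : (X y : MvPolynomial Λ R) ∈ Free (R := R) {z} := X_mem_Free (by simpa using hyz)
  -- the decomposition
  have key : (E + X y - X z) * (X y + X e + X z) * (H + X y - X e - X z) * (X z + v)
      = X y * X z * (E * H + X e * (H - 2 * v))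
        + (E - X z) * (X e + X z) * (H - X e - X z) * (X z + v)
        + X y * (v * H * (E + X e))
        + X y ^ 2 * ((E + H + X y - X z) * (X z + v))
        + X z ^ 2 * (- (2 * X y * X e) - X y * (X z + v))
        + X e ^ 2 * (- (X y * (X z + v))) := by ring
  rw [key]
  have h1 : Eqv S {y, z} ((E - X z) * (X e + X z) * (H - X e - X z) * (X z + v)) 0 := by
    refine Eqv.free (y := y) (by simp) hy ?_
    exact mul_mem (mul_mem (mul_mem (sub_mem hEy hXz_y) (add_mem hXe_y hXz_y))
      (sub_mem (sub_mem hHy hXe_y) hXz_y)) (add_mem hXz_y hvy)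
  have h2 : Eqv S {y, z} (X y * (v * H * (E + X e))) 0 := by
    refine Eqv.free (y := z) (by simp) hz ?_
    exact mul_mem hXy_z (mul_mem (mul_mem hvz hHz) (add_mem hEz hXe_z))
  have h3 := Eqv.sq S {y, z} y ((E + H + X y - X z) * (X z + v))
  have h4 := Eqv.sq S {y, z} z (- (2 * X y * X e) - X y * (X z + v))
  have h5 := Eqv.sq S {y, z} e (- (X y * (X z + v)))
  have := ((((Eqv.refl S {y, z} (X y * X z * (E * H + X e * (H - 2 * v)))).add h1).add h2).add
    h3).add h4 |>.add h5
  simpa using this

/-- the chain of cells, after elimination of the private columns of the cells: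
everything is selected, or nothing is. -/
lemma chain_eqv {S : Finset Λ} : ∀ (k : ℕ) (e : Fin (k + 2) → Λ), Function.Injective e →
    (∀ i, e i ∈ S) → ∀ (η θ : Fin (k + 1) → MvPolynomial Λ R),
    (∀ i, η i ∈ Free (R := R) (Set.range e)) → (∀ i, θ i ∈ Free (R := R) (Set.range e)) →
    Eqv S (Set.range fun i : Fin k => e i.succ.castSucc)
      (∏ i : Fin (k + 1), (X (e i.castSucc) * η i + X (e i.succ) * θ i))
      ((∏ i : Fin k, X (e i.succ.castSucc)) *
        (X (e 0) * ∏ i, η i + X (e (Fin.last (k + 1))) * ∏ i, θ i)) := by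
  intro k
  induction k with
  | zero =>
    intro e he hS η θ hη hθ
    apply Eqv.of_eq
    simp
  | succ k ih =>
    intro e he hS η θ hη hθ
    have hsub : Set.range (fun i : Fin (k + 2) => e i.castSucc) ⊆ Set.range e := by
      rintro _ ⟨i, rfl⟩; exact ⟨_, rfl⟩
    have ih' := ih (fun i => e i.castSucc) (fun a b h => Fin.castSucc_injective _ (he h))
      (fun i => hS _) (fun i => η i.castSucc) (fun i => θ i.castSucc)
      (fun i => Free_mono hsub (hη _)) (fun i => Free_mono hsub (hθ _))
    rw [Fin.prod_univ_castSucc]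
    set y : Λ := e (Fin.last (k + 1)).castSucc with hydef
    have hyS : y ∈ S := hS _
    set A : Set Λ := Set.range fun i : Fin k => e i.succ.castSucc.castSucc with hA
    set B : Set Λ := Set.range fun i : Fin (k + 1) => e i.succ.castSucc with hB
    have hyB : y ∈ B := ⟨Fin.last k, rfl⟩
    have hAB : A ⊆ B := by
      rintro _ ⟨i, rfl⟩
      exact ⟨i.castSucc, rfl⟩
    have hBr : B ⊆ Set.range e := by rintro _ ⟨i, rfl⟩; exact ⟨_, rfl⟩
    -- the last factor does not involve A
    have hlastfree : (X (e (Fin.last (k + 1)).castSucc) * η (Fin.last (k + 1)) +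
        X (e (Fin.last (k + 1)).succ) * θ (Fin.last (k + 1))) ∈ Free (R := R) A := by
      have hAr : A ⊆ Set.range e := hAB.trans hBr
      refine add_mem (mul_mem (X_mem_Free ?_) (Free_mono hAr (hη _)))
        (mul_mem (X_mem_Free ?_) (Free_mono hAr (hθ _)))
      · rintro ⟨i, hi⟩
        have := he hi
        have h2 := congrArg Fin.val this
        simp at h2
        have := i.isLt
        omega
      · rintro ⟨i, hi⟩
        have := he hi
        have h2 := congrArg Fin.val this
        simp at h2
        have := i.isLt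
        omega
    have step1 : Eqv S B
        ((∏ i : Fin (k + 1), (X (e i.castSucc.castSucc) * η i.castSucc +
          X (e i.castSucc.succ) * θ i.castSucc)) *
          (X (e (Fin.last (k + 1)).castSucc) * η (Fin.last (k + 1)) +
            X (e (Fin.last (k + 1)).succ) * θ (Fin.last (k + 1))))
        (((∏ i : Fin k, X (e i.succ.castSucc.castSucc)) *
          (X (e 0) * ∏ i : Fin (k + 1), η i.castSucc +
            X y * ∏ i : Fin (k + 1), θ i.castSucc)) *
          (X y * η (Fin.last (k + 1)) +
            X (e (Fin.last (k + 1)).succ) * θ (Fin.last (k + 1)))) := by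
      exact (ih'.mul_right hlastfree).mono hAB
    refine step1.trans ?_
    set Pi' : MvPolynomial Λ R := ∏ i : Fin k, X (e i.succ.castSucc.castSucc) with hPi'
    set H : MvPolynomial Λ R := ∏ i : Fin (k + 1), η i.castSucc with hH
    set Th : MvPolynomial Λ R := ∏ i : Fin (k + 1), θ i.castSucc with hTh
    have hrhs : (∏ i : Fin (k + 1), X (e i.succ.castSucc)) *
        (X (e 0) * ∏ i, η i + X (e (Fin.last (k + 1 + 1))) * ∏ i, θ i)
        = Pi' * (X y * (X (e 0) * (H * η (Fin.last (k + 1))) +
            X (e (Fin.last (k + 1)).succ) * (Th * θ (Fin.last (k + 1))))) := by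
      rw [Fin.prod_univ_castSucc, Fin.prod_univ_castSucc (f := η), Fin.prod_univ_castSucc (f := θ)]
      change Pi' * X y * (X (e 0) * (H * η (Fin.last (k + 1))) +
        X (e (Fin.last (k + 1)).succ) * (Th * θ (Fin.last (k + 1)))) = _
      ring
    rw [hrhs]
    have hexp : Pi' * (X (e 0) * H + X y * Th) * (X y * η (Fin.last (k + 1)) +
        X (e (Fin.last (k + 1)).succ) * θ (Fin.last (k + 1)))
        = Pi' * (X y * (X (e 0) * (H * η (Fin.last (k + 1))) +
            X (e (Fin.last (k + 1)).succ) * (Th * θ (Fin.last (k + 1)))))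
          + X y ^ 2 * (Pi' * Th * η (Fin.last (k + 1)))
          + Pi' * (X (e 0) * H * (X (e (Fin.last (k + 1)).succ) * θ (Fin.last (k + 1)))) := by ring
    rw [hexp]
    have hyr : ({y} : Set Λ) ⊆ Set.range e := by
      rintro _ rfl; exact ⟨_, rfl⟩
    have h2 := Eqv.sq S B y (Pi' * Th * η (Fin.last (k + 1)))
    have h3 : Eqv S B
        (Pi' * (X (e 0) * H * (X (e (Fin.last (k + 1)).succ) * θ (Fin.last (k + 1))))) 0 := by
      refine Eqv.free (y := y) hyB hyS ?_
      refine mul_mem (prod_mem fun i _ => X_mem_Free ?_) (mul_mem (mul_mem (X_mem_Free ?_)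
        (prod_mem fun i _ => Free_mono hyr (hη _))) (mul_mem (X_mem_Free ?_)
        (Free_mono hyr (hθ _))))
      · simp only [Set.mem_singleton_iff, hydef]
        intro h
        have h2 := congrArg Fin.val (he h)
        simp at h2
        have := i.isLt
        omega
      · simp only [Set.mem_singleton_iff, hydef]
        intro h
        have h2 := congrArg Fin.val (he h)
        simp at h2
      · simp only [Set.mem_singleton_iff, hydef]
        intro h
        have h2 := congrArg Fin.val (he h)
        simp at h2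
    have := ((Eqv.refl S B (Pi' * (X y * (X (e 0) * (H * η (Fin.last (k + 1))) +
            X (e (Fin.last (k + 1)).succ) * (Th * θ (Fin.last (k + 1))))))).add h2).add h3
    simpa using this

end Pool.Agent.Work.MP_499dc6_lc.Gadget
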