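import Pool.Agent.Work.MP_499dc6_lc.Gadget.Mat

/-!
Assembly of the gadget: two sides and the hubs.
-/

set_option linter.unusedSectionVars false
set_option synthInstance.maxSize 2000

namespace Pool.Agent.Work.MP_499dc6_lc.Gadget

open MvPolynomial Finset

section sideFull

variable {R : Type*} [CommRing R] {Λ : Type*} [DecidableEq Λ]
variable {A : Type*} [Fintype A] [DecidableEq A]

lemma sideVal_mem {k : ℕ} (T : Subalgebra R (MvPolynomial Λ R)) (lam : MvPolynomial Λ R)
    (hlam : lam ∈ T) (H v : A → Fin (k + 1) → MvPolynomial Λ R)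
    (hH : ∀ a i, H a i ∈ T) (hv : ∀ a i, v a i ∈ T) : sideVal lam H v ∈ T := by
  unfold sideVal
  exact add_mem (sum_mem fun a _ => mul_mem (prod_mem fun i _ => sub_mem (hH _ _)
    (mul_mem (T.natCast_mem 2) (hv _ _))) (prod_mem fun a' _ => prod_mem fun i _ => hH _ _))
    (mul_mem hlam (prod_mem fun a' _ => prod_mem fun i _ => hH _ _))

lemma sideProd_mem {k : ℕ} (T : Subalgebra R (MvPolynomial Λ R)) (p : Priv A (k + 1) → Λ)
    (hp : ∀ w, (X (p w) : MvPolynomial Λ R) ∈ T) (lam : MvPolynomial Λ R)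
    (hlam : lam ∈ T) (H v : A → Fin (k + 1) → MvPolynomial Λ R)
    (hH : ∀ a i, H a i ∈ T) (hv : ∀ a i, v a i ∈ T) : sideProd p lam H v ∈ T := by
  unfold sideProd cell
  exact mul_mem (add_mem (sum_mem fun a _ => hp _) (mul_mem hlam (hp _)))
    (prod_mem fun a _ => mul_mem (add_mem (hp _) (hp _)) (prod_mem fun i _ =>
      mul_mem (mul_mem (mul_mem (sub_mem (add_mem (hp _) (hp _)) (hp _))
        (add_mem (add_mem (hp _) (hp _)) (hp _)))
        (sub_mem (sub_mem (add_mem (hH _ _) (hp _)) (hp _)) (hp _))) (add_mem (hp _) (hv _ _))))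

lemma copyProd_mem {k L : ℕ} (T : Subalgebra R (MvPolynomial Λ R)) (p : SideV A k L → Λ)
    (hp : ∀ w, (X (p (.inr w)) : MvPolynomial Λ R) ∈ T)
    (o : Fin L → A → Fin (k + 1) → MvPolynomial Λ R)
    (ho : ∀ l a i, o l a i ∈ T) : copyProd p o ∈ T := by
  unfold copyProd copyRows
  exact prod_mem fun r _ => prod_mem fun l _ =>
    mul_mem (mul_mem (sub_mem (add_mem (add_mem (hp _) (hp _)) (ho _ _ _)) (hp _))
      (add_mem (add_mem (hp _) (hp _)) (hp _))) (sub_mem (sub_mem (add_mem (hp _) (hp _)) (hp _))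
      (hp _))

/-- all private labels of a side -/
def YS {k L : ℕ} (p : SideV A k L → Λ) : Set Λ :=
  (Set.range fun w => p (.inl w)) ∪ Set.range fun w => p (cpIncl A k L w)

lemma YS_sub {k L : ℕ} (p : SideV A k L → Λ) : YS p ⊆ Set.range p := by
  rintro _ (⟨w, rfl⟩ | ⟨w, rfl⟩) <;> exact ⟨_, rfl⟩

lemma hL_not_YS {k L : ℕ} (p : SideV A k L → Λ) (hp : Function.Injective p) (r : A × Fin (k + 1)) :
    p (.inr (.inl (r, Fin.last L))) ∉ YS p := by
  rintro (⟨w, h⟩ | ⟨w, h⟩)
  · exact absurd (hp h) (by simp)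
  · rcases w with w | w
    · have := hp h
      simp only [cpIncl, Sum.inr.injEq, Sum.inl.injEq, Prod.mk.injEq] at this
      exact absurd this.2 (Fin.castSucc_lt_last _).ne
    · exact absurd (hp h) (by simp [cpIncl])

lemma t_not_YS {k L : ℕ} (p : SideV A k L → Λ) (hp : Function.Injective p)
    (w : (A × Fin (k + 1)) × Fin L) : p (.inr (.inr (.inr w))) ∉ YS p := by
  rintro (⟨w, h⟩ | ⟨w, h⟩)
  · exact absurd (hp h) (by simp)
  · rcases w with w | w
    · exact absurd (hp h) (by simp [cpIncl])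
    · exact absurd (hp h) (by simp [cpIncl])

/-- one side, completely eliminated -/
lemma sideFull_eqv {k L : ℕ} {S : Finset Λ} (p : SideV A k L → Λ) (hp : Function.Injective p)
    (hS : ∀ w, p w ∈ S) (lam : R) (v : A → Fin (k + 1) → MvPolynomial Λ R)
    (o : Fin L → A → Fin (k + 1) → MvPolynomial Λ R)
    (hv : ∀ a i, v a i ∈ Free (R := R) (Set.range p))
    (ho : ∀ l a i, o l a i ∈ Free (R := R) (Set.range p)) :
    Eqv S (YS p)
      (sideProd (fun w => p (.inl w)) (C lam) (fun a i => X (p (.inr (.inl ((a, i), 0))))) v *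
        copyProd p o)
      ((∏ w, X (p (.inl w))) * ((∏ w, X (p (cpIncl A k L w))) * sideVal (C lam)
        (fun a i => X (p (.inr (.inl ((a, i), Fin.last L)))) *
          ∏ l : Fin L, (2 * X (p (.inr (.inr (.inr ((a, i), l)))))))
        (fun a i => (∏ l, o l a i) * v a i))) := by
  have hsub1 : (Set.range fun w : Priv A (k + 1) => p (.inl w)) ⊆ Set.range p := by
    rintro _ ⟨w, rfl⟩; exact ⟨_, rfl⟩
  have h1 := side_eqv (S := S) (fun w : Priv A (k + 1) => p (.inl w))
    (fun a b h => by simpa using hp h) (fun w => hS _) (C lam) (C_mem_Free _ _)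
    (fun a i => X (p (.inr (.inl ((a, i), 0))))) v
    (fun a i => X_mem_Free (by rintro ⟨w, h⟩; exact absurd (hp h) (by simp)))
    (fun a i => Free_mono hsub1 (hv a i))
  have hcp : copyProd p o ∈ Free (R := R) (Set.range fun w : Priv A (k + 1) => p (.inl w)) :=
    copyProd_mem _ p (fun w => X_mem_Free (by rintro ⟨w', h⟩; exact absurd (hp h) (by simp))) o
      (fun l a i => Free_mono hsub1 (ho l a i))
  have h2 := copyProd_eqv (S := S) p hp hS v o hv ho (C lam) (C_mem_Free _ _)
  have hpr : (∏ w : Priv A (k + 1), X (p (.inl w)) : MvPolynomial Λ R) ∈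
      Free (R := R) (Set.range fun w => p (cpIncl A k L w)) := by
    refine prod_mem fun w _ => X_mem_Free ?_
    rintro ⟨w', h⟩
    rcases w' with w' | w'
    · exact absurd (hp h) (by simp [cpIncl])
    · exact absurd (hp h) (by simp [cpIncl])
  have h3 := (h1.mul_right hcp).mono (Set.subset_union_left (t := Set.range fun w =>
    p (cpIncl A k L w)))
  have h4 := (h2.mul_left hpr).mono (Set.subset_union_right (s := Set.range fun w :
    Priv A (k + 1) => p (.inl w)))
  exact h3.trans ((Eqv.of_eq (by rw [mul_assoc])).trans h4)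

end sideFull

section gadget

variable {R : Type*} [CommRing R]
variable {A B : Type*} [Fintype A] [DecidableEq A] [Fintype B] [DecidableEq B]
variable {ka kb L Sn κ : ℕ}

instance instDecSideV : DecidableEq (SideV A ka L) :=
  @instDecidableEqSum _ _ inferInstance
    (@instDecidableEqSum _ _ inferInstance (@instDecidableEqSum _ _ inferInstance inferInstance))

/-- the index type of the gadget -/
abbrev GV (A B : Type*) (ka kb L Sn κ : ℕ) :=
  (SideV A ka L ⊕ SideV B kb L) ⊕ (Fin L × (Fin Sn × Fin κ))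

/-- labels of the row side -/
abbrev pA (w : SideV A ka L) : GV A B ka kb L Sn κ := .inl (.inl w)

/-- labels of the column side -/
abbrev pB (w : SideV B kb L) : GV A B ka kb L Sn κ := .inl (.inr w)

/-- the variables of the row-to-column forms -/
noncomputable def vForm (V : A × Fin (ka + 1) → B × Fin (kb + 1) → R) (r : A × Fin (ka + 1)) :
    MvPolynomial (GV A B ka kb L Sn κ) R :=
  ∑ c, C (V r c) * X (pB (.inr (.inl (c, Fin.last L))))

/-- the anonymous forms of the row side -/
noncomputable def oForm (R : Type*) [CommRing R] (A : Type*) (B : Type*) [Fintype B]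
    (ka kb L Sn κ : ℕ) (l : Fin L) : MvPolynomial (GV A B ka kb L Sn κ) R :=
  ∑ c : B × Fin (kb + 1), X (pB (.inr (.inr (.inr (c, l)))))

/-- the anonymous form of the column side -/
noncomputable def wForm (R : Type*) [CommRing R] (A : Type*) [Fintype A] (B : Type*)
    (ka kb L Sn κ : ℕ) : MvPolynomial (GV A B ka kb L Sn κ) R :=
  ∑ r : A × Fin (ka + 1), X (pA (.inr (.inl (r, Fin.last L))))

/-- the forms going to the hubs -/
noncomputable def gForm (A B : Type*) (ka : ℕ) (β : Fin L → Fin Sn → Fin (kb + 1) → R)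
    (g : Fin κ → R) (l : Fin L) (j : Fin (kb + 1)) : MvPolynomial (GV A B ka kb L Sn κ) R :=
  ∑ s, C (β l s j) * ∑ q, C (g q) * X (.inr (l, (s, q)))

/-- the product of the rows of the hubs -/
noncomputable def hubProd (B : Type*) (kb κ : ℕ) (α : Fin L → Fin Sn → Fin (ka + 1) → R) :
    MvPolynomial (GV A B ka kb L Sn κ) R :=
  ∏ l : Fin L, ∏ s : Fin Sn, ∏ q : Fin κ, (X (.inr (l, (s, q))) +
    ∑ r : A × Fin (ka + 1), C (α l s r.2) * X (pA (.inr (.inr (.inr (r, l))))))

/-- coefficient vector of `vForm` -/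
noncomputable def vVec (V : A × Fin (ka + 1) → B × Fin (kb + 1) → R) (r : A × Fin (ka + 1)) :
    GV A B ka kb L Sn κ → R :=
  ∑ c, Pi.single (pB (.inr (.inl (c, Fin.last L)))) (V r c)

/-- coefficient vector of `oForm` -/
noncomputable def oVec (R : Type*) [CommRing R] (A : Type*) [DecidableEq A] (B : Type*)
    [DecidableEq B] [Fintype B]
    (ka kb L Sn κ : ℕ) (l : Fin L) : GV A B ka kb L Sn κ → R :=
  ∑ c : B × Fin (kb + 1), Pi.single (pB (.inr (.inr (.inr (c, l))))) 1

/-- coefficient vector of `wForm` -/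
noncomputable def wVec (R : Type*) [CommRing R] (A : Type*) [DecidableEq A] [Fintype A]
    (B : Type*) [DecidableEq B] (ka kb L Sn κ : ℕ) : GV A B ka kb L Sn κ → R :=
  ∑ r : A × Fin (ka + 1), Pi.single (pA (.inr (.inl (r, Fin.last L)))) 1

/-- coefficient vector of `gForm` -/
noncomputable def gVec (A B : Type*) [DecidableEq A] [DecidableEq B] (ka : ℕ)
    (β : Fin L → Fin Sn → Fin (kb + 1) → R)
    (g : Fin κ → R) (l : Fin L) (j : Fin (kb + 1)) : GV A B ka kb L Sn κ → R :=
  ∑ s, ∑ q, Pi.single (.inr (l, (s, q))) (β l s j * g q)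

/-- rows of the hubs -/
noncomputable def hubVec (B : Type*) [DecidableEq B] (kb κ : ℕ)
    (α : Fin L → Fin Sn → Fin (ka + 1) → R)
    (w : Fin L × (Fin Sn × Fin κ)) : GV A B ka kb L Sn κ → R :=
  Pi.single (.inr w) 1 + ∑ r : A × Fin (ka + 1),
    Pi.single (pA (.inr (.inr (.inr (r, w.1))))) (α w.1 w.2.1 r.2)

lemma lin_vVec (V : A × Fin (ka + 1) → B × Fin (kb + 1) → R) (r : A × Fin (ka + 1)) :
    lin (vVec V r : GV A B ka kb L Sn κ → R) = vForm V r := by
  unfold vVec vForm
  simp only [lin_sum, lin_single]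

lemma lin_oVec (l : Fin L) :
    lin (oVec R A B ka kb L Sn κ l) = oForm R A B ka kb L Sn κ l := by
  unfold oVec oForm
  simp only [lin_sum, lin_single_one]

lemma lin_wVec : lin (wVec R A B ka kb L Sn κ) = wForm R A B ka kb L Sn κ := by
  unfold wVec wForm
  simp only [lin_sum, lin_single_one]

lemma lin_gVec (β : Fin L → Fin Sn → Fin (kb + 1) → R) (g : Fin κ → R) (l : Fin L)
    (j : Fin (kb + 1)) : lin (gVec A B ka β g l j) = gForm A B ka β g l j := by
  unfold gVec gForm
  simp only [lin_sum, lin_single, map_mul, Finset.mul_sum, mul_assoc]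

lemma lin_hubVec (α : Fin L → Fin Sn → Fin (ka + 1) → R) (w : Fin L × (Fin Sn × Fin κ)) :
    lin (hubVec B kb κ α w : GV A B ka kb L Sn κ → R) = X (.inr w) +
      ∑ r : A × Fin (ka + 1), C (α w.1 w.2.1 r.2) * X (pA (.inr (.inr (.inr (r, w.1))))) := by
  unfold hubVec
  rw [lin_add, lin_sum, lin_single_one]
  simp only [lin_single]

/-- the matrix of the gadget -/
noncomputable def gadget (α : Fin L → Fin Sn → Fin (ka + 1) → R)
    (β : Fin L → Fin Sn → Fin (kb + 1) → R) (g : Fin κ → R)
    (V : A × Fin (ka + 1) → B × Fin (kb + 1) → R) (lam : R) :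
    Matrix (GV A B ka kb L Sn κ) (GV A B ka kb L Sn κ) R :=
  Sum.elim (Sum.elim
    (fun w => sideRow (fun w => (pA w : GV A B ka kb L Sn κ)) lam (fun a i => vVec V (a, i))
      (fun l _ _ => oVec R A B ka kb L Sn κ l) w)
    (fun w => sideRow (fun w => (pB w : GV A B ka kb L Sn κ)) 0
      (fun _ _ => wVec R A B ka kb L Sn κ) (fun l _ j => gVec A B ka β g l j) w))
    (fun w => hubVec B kb κ α w)

lemma gadget_prod (α : Fin L → Fin Sn → Fin (ka + 1) → R)
    (β : Fin L → Fin Sn → Fin (kb + 1) → R) (g : Fin κ → R)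
    (V : A × Fin (ka + 1) → B × Fin (kb + 1) → R) (lam : R) :
    ∏ w, lin (gadget α β g V lam w) =
      ((sideProd (fun w => (pA (.inl w) : GV A B ka kb L Sn κ)) (C lam)
          (fun a i => X (pA (.inr (.inl ((a, i), 0))))) (fun a i => vForm V (a, i)) *
        copyProd (fun w => pA w) (fun l _ _ => oForm R A B ka kb L Sn κ l)) *
      (sideProd (fun w => (pB (.inl w) : GV A B ka kb L Sn κ)) (C 0)
          (fun a i => X (pB (.inr (.inl ((a, i), 0))))) (fun _ _ => wForm R A B ka kb L Sn κ) *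
        copyProd (fun w => pB w) (fun l _ j => gForm A B ka β g l j))) *
      hubProd B kb κ α := by
  classical
  have h1 : (∏ w : SideV A ka L, lin (gadget α β g V lam (.inl (.inl w)))) =
      sideProd (fun w => (pA (.inl w) : GV A B ka kb L Sn κ)) (C lam)
          (fun a i => X (pA (.inr (.inl ((a, i), 0))))) (fun a i => vForm V (a, i)) *
        copyProd (fun w => pA w) (fun l _ _ => oForm R A B ka kb L Sn κ l) := by
    have h := sideRow_prod (R := R) (fun w => (pA w : GV A B ka kb L Sn κ)) lam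
      (fun a i => vVec V (a, i)) (fun l _ _ => oVec R A B ka kb L Sn κ l)
    simp only [lin_vVec, lin_oVec] at h
    exact h
  have h2 : (∏ w : SideV B kb L, lin (gadget α β g V lam (.inl (.inr w)))) =
      sideProd (fun w => (pB (.inl w) : GV A B ka kb L Sn κ)) (C 0)
          (fun a i => X (pB (.inr (.inl ((a, i), 0))))) (fun _ _ => wForm R A B ka kb L Sn κ) *
        copyProd (fun w => pB w) (fun l _ j => gForm A B ka β g l j) := by
    have h := sideRow_prod (R := R) (fun w => (pB w : GV A B ka kb L Sn κ)) 0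
      (fun _ _ => wVec R A B ka kb L Sn κ) (fun l _ j => gVec A B ka β g l j)
    simp only [lin_wVec, lin_gVec] at h
    exact h
  have h3 : (∏ w : Fin L × (Fin Sn × Fin κ), lin (gadget α β g V lam (.inr w))) =
      hubProd B kb κ α := by
    unfold hubProd
    rw [Fintype.prod_prod_type]
    refine Finset.prod_congr rfl fun l _ => ?_
    rw [Fintype.prod_prod_type]
    refine Finset.prod_congr rfl fun s _ => Finset.prod_congr rfl fun q _ => ?_
    exact lin_hubVec α (l, (s, q))
  rw [Fintype.prod_sum_type, Fintype.prod_sum_type, h1, h2, h3]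

end gadget

end Pool.Agent.Work.MP_499dc6_lc.Gadget
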