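import Mathlib

/-!
Coefficients of squarefree monomials in products of linear forms: basic calculus.
-/

namespace Pool.Agent.Work.MP_499dc6_lc.Gadget

open MvPolynomial Finset

variable {R : Type*} [CommRing R] {Λ : Type*} [DecidableEq Λ]

/-- the exponent vector of the squarefree monomial of `S` -/
noncomputable def ind (S : Finset Λ) : Λ →₀ ℕ := ∑ c ∈ S, Finsupp.single c 1

/-- the coefficient of the squarefree monomial of `S` -/
noncomputable def top (S : Finset Λ) : MvPolynomial Λ R →ₗ[R] R := lcoeff R (ind S)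

/-- the polynomials that do not involve the variables of `Y` -/
noncomputable abbrev Free (Y : Set Λ) : Subalgebra R (MvPolynomial Λ R) := supported R Yᶜ

lemma top_apply (S : Finset Λ) (P : MvPolynomial Λ R) : top S P = coeff (ind S) P := rfl

lemma ind_apply (S : Finset Λ) (c : Λ) : ind S c = if c ∈ S then 1 else 0 := by
  classical
  unfold ind
  rw [Finsupp.finset_sum_apply]
  simp only [Finsupp.single_apply]
  rw [Finset.sum_ite_eq']

lemma X_mem_Free {Y : Set Λ} {c : Λ} (h : c ∉ Y) : (X c : MvPolynomial Λ R) ∈ Free (R := R) Y := by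
  exact Algebra.subset_adjoin (Set.mem_image_of_mem _ h)

lemma C_mem_Free (Y : Set Λ) (a : R) : (C a : MvPolynomial Λ R) ∈ Free (R := R) Y :=
  (Free (R := R) Y).algebraMap_mem a

lemma Free_mono {Y Z : Set Λ} (h : Y ⊆ Z) : Free (R := R) Z ≤ Free (R := R) Y :=
  supported_mono (Set.compl_subset_compl.mpr h)

lemma top_free {S : Finset Λ} {y : Λ} (hy : y ∈ S) {P : MvPolynomial Λ R}
    (hP : P ∈ Free (R := R) {y}) : top S P = 0 := by
  rw [top_apply]
  by_contra hne
  have hsup : ind S ∈ P.support := mem_support_iff.mpr hne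
  have hv : y ∈ P.vars := by
    rw [mem_vars]
    exact ⟨ind S, hsup, by rw [Finsupp.mem_support_iff, ind_apply]; simp [hy]⟩
  have := (mem_supported.mp hP) hv
  simp at this

lemma top_sq {S : Finset Λ} {y : Λ} (P : MvPolynomial Λ R) : top S (X y ^ 2 * P) = 0 := by
  rw [top_apply, pow_two, mul_assoc, coeff_X_mul']
  split_ifs with h
  · rw [coeff_X_mul', if_neg]
    rw [Finsupp.mem_support_iff, Finsupp.coe_tsub, Pi.sub_apply, ind_apply, Finsupp.single_eq_same]
    split_ifs <;> simp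
  · rfl

lemma top_shift {S : Finset Λ} {y : Λ} (hy : y ∉ S) (P : MvPolynomial Λ R) :
    top (insert y S) (X y * P) = top S P := by
  rw [top_apply, top_apply]
  have : ind (insert y S) = Finsupp.single y 1 + ind S := by
    unfold ind
    rw [Finset.sum_insert hy]
  rw [this, coeff_X_mul]

lemma top_shift_prod {S T : Finset Λ} (h : Disjoint T S) (P : MvPolynomial Λ R) :
    top (T ∪ S) ((∏ y ∈ T, X y) * P) = top S P := by
  classical
  induction T using Finset.induction_on with
  | empty => simp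
  | insert a T ha ih =>
    rw [Finset.disjoint_insert_left] at h
    rw [Finset.insert_union, Finset.prod_insert ha, mul_assoc, top_shift, ih h.2]
    simp [ha, h.1]

/-- `P` and `P'` can be exchanged under `top S`, as long as the other factors do not involve the
variables of `Y` -/
def Eqv (S : Finset Λ) (Y : Set Λ) (P P' : MvPolynomial Λ R) : Prop :=
  ∀ Q ∈ Free (R := R) Y, top S (P * Q) = top S (P' * Q)

lemma Eqv.refl (S : Finset Λ) (Y : Set Λ) (P : MvPolynomial Λ R) : Eqv S Y P P := fun _ _ => rfl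

lemma Eqv.of_eq {S : Finset Λ} {Y : Set Λ} {P P' : MvPolynomial Λ R} (h : P = P') :
    Eqv S Y P P' := by subst h; exact Eqv.refl _ _ _

lemma Eqv.symm {S : Finset Λ} {Y : Set Λ} {P P' : MvPolynomial Λ R} (h : Eqv S Y P P') :
    Eqv S Y P' P := fun Q hQ => (h Q hQ).symm

lemma Eqv.trans {S : Finset Λ} {Y : Set Λ} {P P' P'' : MvPolynomial Λ R} (h : Eqv S Y P P')
    (h' : Eqv S Y P' P'') : Eqv S Y P P'' := fun Q hQ => (h Q hQ).trans (h' Q hQ)

lemma Eqv.mono {S : Finset Λ} {Y Z : Set Λ} {P P' : MvPolynomial Λ R} (h : Eqv S Y P P')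
    (hYZ : Y ⊆ Z) : Eqv S Z P P' := fun Q hQ => h Q (Free_mono hYZ hQ)

lemma Eqv.mul_right {S : Finset Λ} {Y : Set Λ} {P P' : MvPolynomial Λ R} (h : Eqv S Y P P')
    {Q : MvPolynomial Λ R} (hQ : Q ∈ Free (R := R) Y) : Eqv S Y (P * Q) (P' * Q) := by
  intro Q' hQ'
  rw [mul_assoc, mul_assoc]
  exact h _ (mul_mem hQ hQ')

lemma Eqv.mul_left {S : Finset Λ} {Y : Set Λ} {P P' : MvPolynomial Λ R} (h : Eqv S Y P P')
    {Q : MvPolynomial Λ R} (hQ : Q ∈ Free (R := R) Y) : Eqv S Y (Q * P) (Q * P') := by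
  rw [mul_comm Q P, mul_comm Q P']
  exact h.mul_right hQ

lemma Eqv.mul {S : Finset Λ} {Y Z : Set Λ} {P P' Q Q' : MvPolynomial Λ R} (h : Eqv S Y P P')
    (h' : Eqv S Z Q Q') (hQ : Q ∈ Free (R := R) Y) (hP' : P' ∈ Free (R := R) Z) :
    Eqv S (Y ∪ Z) (P * Q) (P' * Q') := by
  refine Eqv.trans (P' := P' * Q) ?_ ?_
  · exact (h.mul_right hQ).mono Set.subset_union_left
  · exact (h'.mul_left hP').mono Set.subset_union_right

lemma Eqv.add {S : Finset Λ} {Y : Set Λ} {P P' Q Q' : MvPolynomial Λ R} (h : Eqv S Y P P')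
    (h' : Eqv S Y Q Q') : Eqv S Y (P + Q) (P' + Q') := by
  intro T hT
  rw [add_mul, add_mul, map_add, map_add, h T hT, h' T hT]

/-- squares vanish -/
lemma Eqv.sq (S : Finset Λ) (Y : Set Λ) (y : Λ) (P : MvPolynomial Λ R) :
    Eqv S Y (X y ^ 2 * P) 0 := by
  intro Q _
  rw [mul_assoc, top_sq, zero_mul, map_zero]

/-- terms missing a private variable vanish -/
lemma Eqv.free {S : Finset Λ} {Y : Set Λ} {y : Λ} (hy : y ∈ Y) (hyS : y ∈ S)
    {P : MvPolynomial Λ R} (hP : P ∈ Free (R := R) {y}) : Eqv S Y P 0 := by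
  intro Q hQ
  rw [zero_mul, map_zero]
  exact top_free hyS (mul_mem hP (Free_mono (Set.singleton_subset_iff.mpr hy) hQ))

/-- simultaneous replacement in a finite product -/
lemma Eqv.prod {J : Type*} {S : Finset Λ} {Y : J → Set Λ} (s : Finset J)
    {P P' : J → MvPolynomial Λ R} (h : ∀ j ∈ s, Eqv S (Y j) (P j) (P' j))
    (hP : ∀ j ∈ s, ∀ i ∈ s, i ≠ j → P i ∈ Free (R := R) (Y j))
    (hP' : ∀ j ∈ s, ∀ i ∈ s, i ≠ j → P' i ∈ Free (R := R) (Y j)) :
    Eqv S (⋃ j ∈ s, Y j) (∏ j ∈ s, P j) (∏ j ∈ s, P' j) := by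
  classical
  induction s using Finset.induction_on with
  | empty => simp [Eqv.refl]
  | insert a s ha ih =>
    rw [Finset.prod_insert ha, Finset.prod_insert ha]
    have ih' := ih (fun j hj => h j (Finset.mem_insert_of_mem hj))
      (fun j hj i hi hij => hP j (Finset.mem_insert_of_mem hj) i (Finset.mem_insert_of_mem hi) hij)
      (fun j hj i hi hij => hP' j (Finset.mem_insert_of_mem hj) i (Finset.mem_insert_of_mem hi) hij)
    rw [Finset.set_biUnion_insert]
    refine Eqv.mul (h a (Finset.mem_insert_self _ _)) ih' ?_ ?_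
    · refine prod_mem fun i hi => hP a (Finset.mem_insert_self _ _) i
        (Finset.mem_insert_of_mem hi) ?_
      rintro rfl; exact ha hi
    · have : ∀ j ∈ s, P' a ∈ Free (R := R) (Y j) := fun j hj =>
        hP' j (Finset.mem_insert_of_mem hj) a (Finset.mem_insert_self _ _)
          (by rintro rfl; exact ha hj)
      rw [mem_supported]
      intro v hv
      rw [Set.mem_compl_iff, Set.mem_iUnion₂]
      rintro ⟨j, hj, hvj⟩
      exact (mem_supported.mp (this j hj)) hv hvj

end Pool.Agent.Work.MP_499dc6_lc.Gadget
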