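import Pool.Agent.Work.MP_499dc6_lc.Gadget.Side

/-!
The copy cell: one port becomes two ports which are used together or not at all.
-/

set_option linter.unusedSectionVars false

namespace Pool.Agent.Work.MP_499dc6_lc.Gadget

open MvPolynomial Finset

variable {R : Type*} [CommRing R] {Λ : Type*} [DecidableEq Λ]

/-- the three rows of a copy cell -/
noncomputable def copyRows (h y t h' : Λ) (o : MvPolynomial Λ R) : MvPolynomial Λ R :=
  (X t + X h' + o - X y) * (X y + X t + X h') * (X y + X h - X t - X h')

/-- elimination of the two private columns of a copy cell -/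
lemma copy_eqv {S : Finset Λ} {h y t h' : Λ} (hh : h ∈ S) (hy : y ∈ S) (hhy : h ≠ y)
    (hth : t ≠ h) (hty : t ≠ y) (hh'h : h' ≠ h) (hh'y : h' ≠ y)
    {A B o : MvPolynomial Λ R}
    (hA : A ∈ Free (R := R) {h, y}) (hB : B ∈ Free (R := R) {h, y})
    (ho : o ∈ Free (R := R) {h, y}) :
    Eqv S {h, y} ((X h * A + B) * copyRows h y t h' o)
      (X h * X y * (2 * X t * X h' * A + o * B)) := by
  have hy1 : ({y} : Set Λ) ⊆ {h, y} := by intro a ha; simp at ha ⊢; exact Or.inr ha
  have hh1 : ({h} : Set Λ) ⊆ {h, y} := by intro a ha; simp at ha ⊢; exact Or.inl ha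
  have hAy := Free_mono hy1 hA
  have hBy := Free_mono hy1 hB
  have hoy := Free_mono hy1 ho
  have hAh := Free_mono hh1 hA
  have hBh := Free_mono hh1 hB
  have hoh := Free_mono hh1 ho
  have hXt_y : (X t : MvPolynomial Λ R) ∈ Free (R := R) {y} := X_mem_Free (by simpa using hty)
  have hXt_h : (X t : MvPolynomial Λ R) ∈ Free (R := R) {h} := X_mem_Free (by simpa using hth)
  have hXh'_y : (X h' : MvPolynomial Λ R) ∈ Free (R := R) {y} := X_mem_Free (by simpa using hh'y)
  have hXh'_h : (X h' : MvPolynomial Λ R) ∈ Free (R := R) {h} := X_mem_Free (by simpa using hh'h)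
  have hXh_y : (X h : MvPolynomial Λ R) ∈ Free (R := R) {y} := X_mem_Free (by simpa using hhy)
  have hXy_h : (X y : MvPolynomial Λ R) ∈ Free (R := R) {h} := X_mem_Free (by simpa using hhy.symm)
  have key : (X h * A + B) * copyRows h y t h' o
      = X h * X y * (2 * X t * X h' * A + o * B)
        + (X h * A + B) * ((X t + X h' + o) * (X t + X h') * (X h - X t - X h'))
        + X y * (B * (2 * X t * X h'))
        + X y ^ 2 * ((X h * A + B) * ((X t + X h' + o) - (X h - X t - X h') - (X t + X h') - X y))
        + X h ^ 2 * (X y * (A * o))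
        + X t ^ 2 * (X y * (X h * A + B))
        + X h' ^ 2 * (X y * (X h * A + B)) := by
    unfold copyRows; ring
  rw [key]
  have h1 : Eqv S {h, y} ((X h * A + B) *
      ((X t + X h' + o) * (X t + X h') * (X h - X t - X h'))) 0 := by
    refine Eqv.free (y := y) (by simp) hy ?_
    exact mul_mem (add_mem (mul_mem hXh_y hAy) hBy) (mul_mem (mul_mem (add_mem (add_mem hXt_y hXh'_y)
      hoy) (add_mem hXt_y hXh'_y)) (sub_mem (sub_mem hXh_y hXt_y) hXh'_y))
  have h2 : Eqv S {h, y} (X y * (B * (2 * X t * X h'))) 0 := by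
    refine Eqv.free (y := h) (by simp) hh ?_
    exact mul_mem hXy_h (mul_mem hBh (mul_mem (mul_mem ((Free (R := R) {h}).natCast_mem 2) hXt_h)
      hXh'_h))
  have h3 := Eqv.sq S {h, y} y
    ((X h * A + B) * ((X t + X h' + o) - (X h - X t - X h') - (X t + X h') - X y))
  have h4 := Eqv.sq S {h, y} h (X y * (A * o))
  have h5 := Eqv.sq S {h, y} t (X y * (X h * A + B))
  have h6 := Eqv.sq S {h, y} h' (X y * (X h * A + B))
  have := (((((Eqv.refl S {h, y} (X h * X y * (2 * X t * X h' * A + o * B))).add h1).add h2).add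
    h3).add h4).add h5 |>.add h6
  simpa using this

/-- a chain of copy cells -/
lemma copyChain_eqv {S : Finset Λ} : ∀ (L : ℕ) (h : Fin (L + 1) → Λ) (y t : Fin L → Λ),
    Function.Injective h → Function.Injective y → (∀ i j, h i ≠ y j) → (∀ i j, t i ≠ h j) →
    (∀ i j, t i ≠ y j) → (∀ i, h i ∈ S) → (∀ i, y i ∈ S) →
    ∀ (o : Fin L → MvPolynomial Λ R) (A B : MvPolynomial Λ R),
    (∀ i, o i ∈ Free (R := R) (Set.range h ∪ Set.range y)) →
    A ∈ Free (R := R) (Set.range h ∪ Set.range y) →
    B ∈ Free (R := R) (Set.range h ∪ Set.range y) →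
    Eqv S ((Set.range fun i : Fin L => h i.castSucc) ∪ Set.range y)
      ((X (h 0) * A + B) * ∏ l : Fin L, copyRows (h l.castSucc) (y l) (t l) (h l.succ) (o l))
      ((∏ l : Fin L, (X (h l.castSucc) * X (y l))) *
        (X (h (Fin.last L)) * ((∏ l, (2 * X (t l))) * A) + (∏ l, o l) * B)) := by
  intro L
  induction L with
  | zero =>
    intro h y t _ _ _ _ _ _ _ o A B _ _ _
    apply Eqv.of_eq
    simp
  | succ L ih =>
    intro h y t hh hy hhy hth hty hhS hyS o A B ho hA hB
    have hsub : (Set.range fun i : Fin (L + 1) => h i.castSucc) ∪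
        (Set.range fun i : Fin L => y i.castSucc) ⊆ Set.range h ∪ Set.range y := by
      rintro _ (⟨i, rfl⟩ | ⟨i, rfl⟩)
      · left; exact ⟨_, rfl⟩
      · right; exact ⟨_, rfl⟩
    have ih' := ih (fun i => h i.castSucc) (fun i => y i.castSucc) (fun i => t i.castSucc)
      (fun a b hab => Fin.castSucc_injective _ (hh hab))
      (fun a b hab => Fin.castSucc_injective _ (hy hab))
      (fun i j => hhy _ _) (fun i j => hth _ _) (fun i j => hty _ _) (fun i => hhS _)
      (fun i => hyS _) (fun i => o i.castSucc) A B (fun i => Free_mono hsub (ho _))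
      (Free_mono hsub hA) (Free_mono hsub hB)
    rw [Fin.prod_univ_castSucc, ← mul_assoc]
    set hl : Λ := h (Fin.last L).castSucc with hhl
    set yl : Λ := y (Fin.last L) with hyl
    set U : Set Λ := (Set.range fun i : Fin (L + 1) => h i.castSucc) ∪ Set.range y with hU
    set U' : Set Λ := (Set.range fun i : Fin L => h i.castSucc.castSucc) ∪
      Set.range fun i : Fin L => y i.castSucc with hU'
    have hU'U : U' ⊆ U := by
      rintro _ (⟨i, rfl⟩ | ⟨i, rfl⟩)
      · left; exact ⟨i.castSucc, rfl⟩
      · right; exact ⟨_, rfl⟩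
    have hlU : ({hl, yl} : Set Λ) ⊆ U := by
      rintro x (rfl | rfl)
      · left; exact ⟨Fin.last L, rfl⟩
      · right; exact ⟨Fin.last L, rfl⟩
    have hUr : U ⊆ Set.range h ∪ Set.range y := by
      rintro _ (⟨i, rfl⟩ | ⟨i, rfl⟩)
      · left; exact ⟨_, rfl⟩
      · right; exact ⟨_, rfl⟩
    -- membership facts
    have notU' : ∀ x : Λ, (∀ i : Fin L, x ≠ h i.castSucc.castSucc) →
        (∀ i : Fin L, x ≠ y i.castSucc) → (X x : MvPolynomial Λ R) ∈ Free (R := R) U' := by
      intro x h1 h2
      refine X_mem_Free ?_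
      rintro (⟨i, hi⟩ | ⟨i, hi⟩)
      · exact h1 i hi.symm
      · exact h2 i hi.symm
    have hlastfree : copyRows hl yl (t (Fin.last L)) (h (Fin.last L).succ) (o (Fin.last L)) ∈
        Free (R := R) U' := by
      have e1 : (X hl : MvPolynomial Λ R) ∈ Free (R := R) U' := by
        apply notU'
        · intro i hi
          have h2 := congrArg Fin.val (hh hi)
          simp at h2
          have := i.isLt
          omega
        · intro i; exact hhy _ _
      have e2 : (X yl : MvPolynomial Λ R) ∈ Free (R := R) U' := by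
        apply notU'
        · intro i; exact (hhy _ _).symm
        · intro i hi
          have h2 := congrArg Fin.val (hy hi)
          simp at h2
          have := i.isLt
          omega
      have e3 : (X (t (Fin.last L)) : MvPolynomial Λ R) ∈ Free (R := R) U' := by
        apply notU'
        · intro i; exact hth _ _
        · intro i; exact hty _ _
      have e4 : (X (h (Fin.last L).succ) : MvPolynomial Λ R) ∈ Free (R := R) U' := by
        apply notU'
        · intro i hi
          have h2 := congrArg Fin.val (hh hi)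
          simp at h2
          have := i.isLt
          omega
        · intro i; exact hhy _ _
      have e5 := Free_mono (hU'U.trans hUr) (ho (Fin.last L))
      exact mul_mem (mul_mem (sub_mem (add_mem (add_mem e3 e4) e5) e2) (add_mem (add_mem e2 e3) e4))
        (sub_mem (sub_mem (add_mem e2 e1) e3) e4)
    have step1 := (ih'.mul_right hlastfree).mono hU'U
    refine Eqv.trans (P' := ((∏ l : Fin L, (X (h l.castSucc.castSucc) * X (y l.castSucc))) *
        (X hl * ((∏ l : Fin L, (2 * X (t l.castSucc))) * A) + (∏ l : Fin L, o l.castSucc) * B)) *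
        copyRows hl yl (t (Fin.last L)) (h (Fin.last L).succ) (o (Fin.last L))) step1 ?_
    -- the last cell
    set A' : MvPolynomial Λ R := (∏ l : Fin L, (2 * X (t l.castSucc))) * A with hA'
    set B' : MvPolynomial Λ R := (∏ l : Fin L, o l.castSucc) * B with hB'
    set W : MvPolynomial Λ R := ∏ l : Fin L, (X (h l.castSucc.castSucc) * X (y l.castSucc)) with hW
    have hlr : ({hl, yl} : Set Λ) ⊆ Set.range h ∪ Set.range y := hlU.trans hUr
    have hA'f : A' ∈ Free (R := R) {hl, yl} := by
      refine mul_mem (prod_mem fun i _ => mul_mem ((Free (R := R) {hl, yl}).natCast_mem 2)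
        (X_mem_Free ?_)) (Free_mono hlr hA)
      rintro (hi | hi)
      · exact hth _ _ hi
      · exact hty _ _ hi
    have hB'f : B' ∈ Free (R := R) {hl, yl} :=
      mul_mem (prod_mem fun i _ => Free_mono hlr (ho _)) (Free_mono hlr hB)
    have hWf : W ∈ Free (R := R) {hl, yl} := by
      refine prod_mem fun i _ => mul_mem (X_mem_Free ?_) (X_mem_Free ?_)
      · rintro (hi | hi)
        · have h2 := congrArg Fin.val (hh hi)
          simp at h2
          have := i.isLt
          omega
        · exact hhy _ _ hi
      · rintro (hi | hi)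
        · exact hhy _ _ hi.symm
        · have h2 := congrArg Fin.val (hy hi)
          simp at h2
          have := i.isLt
          omega
    have hcell := copy_eqv (S := S) (h := hl) (y := yl) (t := t (Fin.last L))
      (h' := h (Fin.last L).succ) (hhS _) (hyS _) (hhy _ _) (hth _ _) (hty _ _)
      (by
        intro hi
        have h2 := congrArg Fin.val (hh hi)
        simp at h2) (hhy _ _)
      hA'f hB'f (Free_mono hlr (ho (Fin.last L)))
    have hfin := (hcell.mul_left hWf).mono hlU
    refine Eqv.trans (Eqv.of_eq ?_) (hfin.trans (Eqv.of_eq ?_))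
    · ring
    · rw [Fin.prod_univ_castSucc, Fin.prod_univ_castSucc (n := L) (f := fun l => 2 * X (t l)),
        Fin.prod_univ_castSucc (n := L) (f := o)]
      change W * (X hl * X yl * (2 * X (t (Fin.last L)) * X (h (Fin.last L).succ) * A' +
        o (Fin.last L) * B')) = W * (X hl * X yl) * (X (h (Fin.last L).succ) *
        ((∏ l : Fin L, (2 * X (t l.castSucc))) * (2 * X (t (Fin.last L))) * A) +
        (∏ l : Fin L, o l.castSucc) * o (Fin.last L) * B)
      rw [hA', hB']
      ring

end Pool.Agent.Work.MP_499dc6_lc.Gadget
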