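import Pool.Agent.Work.MP_499dc6_lc.Gadget.Family

/-!
The hub of the gadget.
-/

set_option linter.unusedSectionVars false

namespace Pool.Agent.Work.MP_499dc6_lc.Gadget

open MvPolynomial Finset

variable {R : Type*} [CommRing R] {Λ : Type*} [DecidableEq Λ]

/-- the power sum like constants of the hub -/
noncomputable def hubN {κ : ℕ} (g : Fin κ → R) (n : ℕ) : R :=
  ∑ f : Fin n → Fin κ, if Function.Injective f then ∏ m, g (f m) else 0

lemma hubN_zero {κ : ℕ} (g : Fin κ → R) : hubN g 0 = 1 := by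
  unfold hubN
  rw [Fintype.sum_eq_single default]
  · rw [if_pos]
    · simp
    · intro a; exact a.elim0
  · intro f hf
    exact absurd (Subsingleton.elim f default) hf

lemma hubN_top {κ : ℕ} (g : Fin κ → R) : hubN g κ = (κ.factorial : R) * ∏ q, g q := by
  have h := card_forms (R := R) (μ := Fin κ) (I := Fin κ) univ g
  rw [Fintype.card_fin, Finset.card_univ, Fintype.card_fin, if_pos rfl] at h
  rw [← h]
  unfold hubN
  refine Finset.sum_congr rfl fun f _ => ?_
  by_cases hf : Function.Injective f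
  · rw [if_pos hf, if_pos]
    refine ⟨hf, ?_⟩
    exact Finset.image_univ_of_surjective (Finite.surjective_of_injective hf)
  · rw [if_neg hf, if_neg]
    exact fun h => hf h.1

lemma hubN_root {K : Type*} [Field K] {κ : ℕ} {ζ : K} (hζ : IsPrimitiveRoot ζ κ) {n : ℕ}
    (h0 : 0 < n) (hn : n < κ) : hubN (fun q : Fin κ => ζ ^ (q : ℕ)) n = 0 := by
  classical
  have hκ : 0 < κ := lt_trans h0 hn
  haveI : NeZero κ := ⟨hκ.ne'⟩
  set N := hubN (fun q : Fin κ => ζ ^ (q : ℕ)) n with hN
  have hshift : N = ζ ^ n * N := by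
    conv_lhs => rw [hN]
    unfold hubN
    rw [← Equiv.sum_comp (Equiv.arrowCongr (Equiv.refl (Fin n)) (Equiv.addRight (1 : Fin κ)))]
    rw [hN]
    unfold hubN
    rw [Finset.mul_sum]
    refine Finset.sum_congr rfl fun f _ => ?_
    have hinj : Function.Injective ((Equiv.arrowCongr (Equiv.refl (Fin n))
        (Equiv.addRight (1 : Fin κ))) f) ↔ Function.Injective f := by
      constructor
      · intro h a b hab
        apply h
        simp [Equiv.arrowCongr, hab]
      · intro h a b hab
        apply h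
        simpa [Equiv.arrowCongr] using hab
    by_cases hf : Function.Injective f
    · rw [if_pos hf, if_pos (hinj.mpr hf)]
      have : ∀ m : Fin n, ζ ^ ((((Equiv.arrowCongr (Equiv.refl (Fin n))
          (Equiv.addRight (1 : Fin κ))) f) m : Fin κ) : ℕ) = ζ * ζ ^ ((f m : Fin κ) : ℕ) := by
        intro m
        simp only [Equiv.arrowCongr, Equiv.coe_fn_mk, Function.comp, Equiv.coe_addRight,
          Equiv.refl_symm, Equiv.refl_apply, id]
        rw [Fin.val_add, Fin.val_one']
        rw [← pow_succ']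
        have : (((f m : Fin κ) : ℕ) + 1 % κ) % κ ≡ ((f m : Fin κ) : ℕ) + 1 [MOD κ] := by
          unfold Nat.ModEq
          rw [Nat.mod_mod, Nat.add_mod_mod]
        exact pow_eq_pow_of_modEq this hζ.pow_eq_one
      simp only [this]
      rw [Finset.prod_mul_distrib, Finset.prod_const, Finset.card_univ, Fintype.card_fin]
    · rw [if_neg hf, if_neg (fun h => hf (hinj.mp h)), mul_zero]
  have hne : ζ ^ n ≠ 1 := fun h => hζ.pow_ne_one_of_pos_of_lt h0.ne' hn h
  have : (1 - ζ ^ n) * N = 0 := by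
    rw [sub_mul, one_mul, ← hshift, sub_self]
  rcases mul_eq_zero.mp this with h | h
  · exact absurd (sub_eq_zero.mp h).symm hne
  · exact h

/-- the value of one hub, for active row set `Q` and active column set `Cc` -/
noncomputable def hubVal {I J : Type*} [Fintype I] [DecidableEq I] [DecidableEq J]
    {Sn κ : ℕ} (α : Fin Sn → I → R) (β : Fin Sn → J → R) (g : Fin κ → R)
    (Q : Finset I) (Cc : Finset J) : R :=
  ∑ σ : Cc → Fin Sn, (∏ c : Cc, β (σ c) c) *
    (∏ s, hubN g (univ.filter fun c => σ c = s).card) *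
    ∑ f : Cc → I, if Function.Injective f ∧ univ.image f = Q then ∏ c, α (σ c) (f c) else 0

lemma hub_eqv {I J : Type*} [Fintype I] [DecidableEq I] [DecidableEq J]
    {Sn κ : ℕ} {S : Finset Λ} (u : Fin Sn × Fin κ → Λ) (t : I → Λ)
    (hu : Function.Injective u) (ht : Function.Injective t) (hut : ∀ w i, u w ≠ t i)
    (huS : ∀ w, u w ∈ S) (htS : ∀ i, t i ∈ S)
    (α : Fin Sn → I → R) (β : Fin Sn → J → R) (g : Fin κ → R)
    (Q : Finset I) (Cc : Finset J) :
    Eqv S (Set.range u ∪ Set.range t)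
      (((∏ c ∈ Cc, ∑ s, C (β s c) * ∑ q, C (g q) * X (u (s, q))) *
        ∏ s, ∏ q, (X (u (s, q)) + ∑ i, C (α s i) * X (t i))) * ∏ i ∈ Qᶜ, X (t i))
      (C (hubVal α β g Q Cc) * ((∏ w, X (u w)) * ∏ i, X (t i))) := by
  classical
  set U : Fin Sn → MvPolynomial Λ R := fun s => ∑ q, C (g q) * X (u (s, q)) with hU
  set a : Fin Sn → MvPolynomial Λ R := fun s => ∑ i, C (α s i) * X (t i) with ha
  have haf : ∀ s, a s ∈ Free (R := R) (Set.range u) := fun s =>
    sum_mem fun i _ => mul_mem (C_mem_Free _ _) (X_mem_Free (by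
      rintro ⟨w, hw⟩; exact hut w i hw))
  -- expand the product over Cc
  have hexp : (∏ c ∈ Cc, ∑ s, C (β s c) * U s : MvPolynomial Λ R) =
      ∑ σ : Cc → Fin Sn, C (∏ c : Cc, β (σ c) c) *
        ∏ s, U s ^ (univ.filter fun c => σ c = s).card := by
    rw [← Finset.prod_coe_sort, Finset.prod_univ_sum, Fintype.piFinset_univ]
    refine Finset.sum_congr rfl fun σ _ => ?_
    rw [Finset.prod_mul_distrib, ← map_prod]
    congr 1
    rw [← Finset.prod_fiberwise_of_maps_to (s := univ) (t := univ) (g := σ)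
      (fun _ _ => mem_univ _)]
    refine Finset.prod_congr rfl fun s _ => ?_
    rw [Finset.prod_congr rfl (g := fun _ => U s) (fun c hc => by
      rw [(Finset.mem_filter.mp hc).2]), Finset.prod_const]
  have hexp2 : (∏ c ∈ Cc, ∑ s, C (β s c) * ∑ q, C (g q) * X (u (s, q)) : MvPolynomial Λ R) =
      ∏ c ∈ Cc, ∑ s, C (β s c) * U s := rfl
  rw [hexp2, hexp, Finset.sum_mul, Finset.sum_mul]
  unfold hubVal
  rw [map_sum, Finset.sum_mul]
  refine Eqv.sum _ fun σ _ => ?_
  set n : Fin Sn → ℕ := fun s => (univ.filter fun c => σ c = s).card with hn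
  -- elimination of the u variables
  have hone : ∀ s, Eqv S (Set.range fun q => u (s, q)) (U s ^ n s * ∏ q, (X (u (s, q)) + a s))
      (C (hubN g (n s)) * a s ^ n s * ∏ q, X (u (s, q))) := by
    intro s
    exact hub_one (S := S) (fun q => u (s, q)) (fun q q' h => by simpa using hu h)
      (fun q => huS _) g (a s) (Free_mono (by rintro _ ⟨q, rfl⟩; exact ⟨_, rfl⟩) (haf s)) (n s)
  have hXs : ∀ s s' q, s' ≠ s → (X (u (s', q)) : MvPolynomial Λ R) ∈
      Free (R := R) (Set.range fun q => u (s, q)) := by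
    intro s s' q hs
    refine X_mem_Free ?_
    rintro ⟨q', h⟩
    have := hu h
    simp only [Prod.mk.injEq] at this
    exact hs this.1.symm
  have hafs : ∀ s s', a s' ∈ Free (R := R) (Set.range fun q => u (s, q)) := fun s s' =>
    Free_mono (by rintro _ ⟨q, rfl⟩; exact ⟨_, rfl⟩) (haf s')
  have hprod := Eqv.prod (S := S) (Y := fun s => Set.range fun q => u (s, q)) univ
    (fun s _ => hone s)
    (by
      intro s _ s' _ hs
      refine mul_mem (pow_mem (sum_mem fun q _ => mul_mem (C_mem_Free _ _) (hXs s s' q hs)) _)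
        (prod_mem fun q _ => add_mem (hXs s s' q hs) (hafs _ _)))
    (by
      intro s _ s' _ hs
      exact mul_mem (mul_mem (C_mem_Free _ _) (pow_mem (hafs _ _) _))
        (prod_mem fun q _ => hXs s s' q hs))
  have hsub : (⋃ s ∈ (univ : Finset (Fin Sn)), (Set.range fun q => u (s, q))) ⊆ Set.range u := by
    intro y hy
    rw [Set.mem_iUnion₂] at hy
    obtain ⟨s, _, q, hq⟩ := hy
    exact ⟨_, hq⟩
  have h1 := hprod.mono hsub
  -- the t variables
  have hform := forms_eqv (R := R) (μ := Cc) (S := S) t ht htS (fun c i => α (σ c) i) Q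
  have hpow : (∏ c : Cc, ∑ i, C (α (σ c) i) * X (t i) : MvPolynomial Λ R) = ∏ s, a s ^ n s := by
    rw [← Finset.prod_fiberwise_of_maps_to (s := univ) (t := univ) (g := σ)
      (fun _ _ => mem_univ _)]
    refine Finset.prod_congr rfl fun s _ => ?_
    rw [Finset.prod_congr rfl (g := fun _ => a s) (fun c hc => by
      rw [(Finset.mem_filter.mp hc).2]), Finset.prod_const]
  rw [hpow] at hform
  set τ : R := ∑ f : Cc → I, if Function.Injective f ∧ univ.image f = Q then
    ∏ c, α (σ c) (f c) else 0 with hτ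
  have hXt : ∀ i, (X (t i) : MvPolynomial Λ R) ∈ Free (R := R) (Set.range u) := fun i =>
    X_mem_Free (by rintro ⟨w, hw⟩; exact hut w i hw)
  have hXu : ∀ w, (X (u w) : MvPolynomial Λ R) ∈ Free (R := R) (Set.range t) := fun w =>
    X_mem_Free (by rintro ⟨i, hi⟩; exact hut w i hi.symm)
  have h2 := ((h1.mul_left (C_mem_Free (R := R) (Set.range u) (∏ c : Cc, β (σ c) c))).mul_right
    (prod_mem (fun i (_ : i ∈ Qᶜ) => hXt i))).mono
      (Set.subset_union_left (t := Set.range t))
  have h3 := (hform.mul_left (mul_mem (mul_mem (C_mem_Free (R := R) (Set.range t)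
      (∏ c : Cc, β (σ c) c)) (C_mem_Free (R := R) (Set.range t) (∏ s, hubN g (n s))))
      (prod_mem (fun w (_ : w ∈ univ) => hXu w)))).mono
      (Set.subset_union_right (s := Set.range u))
  refine Eqv.trans (Eqv.of_eq ?_) (h2.trans ((Eqv.of_eq ?_).trans (h3.trans (Eqv.of_eq ?_))))
  · rw [Finset.prod_mul_distrib]
    ring
  · rw [Finset.prod_mul_distrib, Finset.prod_mul_distrib, ← map_prod, Fintype.prod_prod_type]
    ring
  · simp only [map_mul]
    ring

lemma hubVal_empty {I J : Type*} [Fintype I] [DecidableEq I] [DecidableEq J]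
    {Sn κ : ℕ} (α : Fin Sn → I → R) (β : Fin Sn → J → R) (g : Fin κ → R) :
    hubVal α β g (∅ : Finset I) (∅ : Finset J) = 1 := by
  classical
  unfold hubVal
  rw [Fintype.sum_eq_single (fun c => absurd c.2 (Finset.notMem_empty _))]
  · rw [Fintype.sum_eq_single (fun c => absurd c.2 (Finset.notMem_empty _))]
    · rw [if_pos]
      · simp [hubN_zero]
      · refine ⟨fun c => absurd c.2 (Finset.notMem_empty _), ?_⟩
        rw [Finset.image_eq_empty]
        exact Finset.univ_eq_empty
    · intro f hf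
      exact absurd (funext fun c => absurd c.2 (Finset.notMem_empty _)) hf
  · intro f hf
    exact absurd (funext fun c => absurd c.2 (Finset.notMem_empty _)) hf

lemma hubVal_small {I J : Type*} [Fintype I] [DecidableEq I] [DecidableEq J]
    {Sn κ : ℕ} (α : Fin Sn → I → R) (β : Fin Sn → J → R) (g : Fin κ → R)
    (hg : ∀ j, 0 < j → j < κ → hubN g j = 0)
    (Q : Finset I) (Cc : Finset J) (h0 : 0 < Cc.card) (h1 : Cc.card < κ) :
    hubVal α β g Q Cc = 0 := by
  classical
  unfold hubVal
  refine Finset.sum_eq_zero fun σ _ => ?_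
  obtain ⟨c, hc⟩ := Finset.card_pos.mp h0
  have h2 : ∏ s, hubN g (univ.filter fun c => σ c = s).card = 0 := by
    apply Finset.prod_eq_zero (mem_univ (σ ⟨c, hc⟩))
    apply hg
    · exact Finset.card_pos.mpr ⟨⟨c, hc⟩, by simp⟩
    · refine lt_of_le_of_lt (Finset.card_le_univ _) ?_
      simpa using h1
  rw [h2]; ring

lemma hubVal_top {I J : Type*} [Fintype I] [DecidableEq I] [DecidableEq J]
    {Sn κ : ℕ} (α : Fin Sn → I → R) (β : Fin Sn → J → R) (g : Fin κ → R)
    (hg : ∀ j, 0 < j → j < κ → hubN g j = 0) (hκ : 0 < κ)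
    (Q : Finset I) (Cc : Finset J) (h1 : Cc.card = κ) (h2 : Q.card = κ) :
    hubVal α β g Q Cc = (κ.factorial : R) ^ 2 * (∏ q, g q) *
      ∑ s, (∏ c ∈ Cc, β s c) * ∏ i ∈ Q, α s i := by
  classical
  unfold hubVal
  have hne : Cc.Nonempty := Finset.card_pos.mp (by omega)
  obtain ⟨c0, hc0⟩ := hne
  -- only constant σ
  have hconst : ∀ σ : Cc → Fin Sn, (¬ ∃ s, σ = fun _ => s) →
      (∏ s, hubN g (univ.filter fun c => σ c = s).card) = 0 := by
    intro σ hσ
    apply Finset.prod_eq_zero (mem_univ (σ ⟨c0, hc0⟩))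
    apply hg
    · exact Finset.card_pos.mpr ⟨⟨c0, hc0⟩, by simp⟩
    · have h3 : (univ.filter fun c => σ c = σ ⟨c0, hc0⟩) ⊂ univ := by
        refine (Finset.filter_ssubset).mpr ?_
        by_contra hcon
        push Not at hcon
        exact hσ ⟨σ ⟨c0, hc0⟩, funext fun c => hcon c (mem_univ _)⟩
      have h4 := Finset.card_lt_card h3
      rw [Finset.card_univ, Fintype.card_coe, h1] at h4
      exact h4
  have hinj : Function.Injective (fun (s : Fin Sn) => (fun _ : Cc => s)) := by
    intro s s' h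
    exact congrFun h ⟨c0, hc0⟩
  rw [← Finset.sum_subset (Finset.subset_univ (univ.image fun (s : Fin Sn) => (fun _ : Cc => s)))]
  · rw [Finset.sum_image (fun s _ s' _ h => hinj h), Finset.mul_sum]
    refine Finset.sum_congr rfl fun s _ => ?_
    have e1 : (∏ s', hubN g (univ.filter fun _ : Cc => s = s').card) =
        (κ.factorial : R) * ∏ q, g q := by
      rw [Fintype.prod_eq_single s]
      · rw [Finset.filter_true_of_mem (fun _ _ => rfl), Finset.card_univ, Fintype.card_coe, h1,
          hubN_top]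
      · intro s' hs'
        rw [Finset.filter_false_of_mem (fun _ _ h => hs' h.symm), Finset.card_empty, hubN_zero]
    have e2 := card_forms (R := R) (μ := Cc) (I := I) Q (α s)
    rw [Fintype.card_coe, h1, h2, if_pos rfl] at e2
    rw [e1, e2, Finset.prod_coe_sort Cc (fun c => β s c)]
    ring
  · intro σ _ hσ
    rw [hconst σ]
    · ring
    · rintro ⟨s, rfl⟩
      exact hσ (Finset.mem_image_of_mem _ (mem_univ s))

end Pool.Agent.Work.MP_499dc6_lc.Gadget
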