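import Pool.Agent.Work.MP_499dc6_lc.Gadget.Cell

/-!
One side (rows or columns) of the selection gadget.
-/

set_option linter.unusedSectionVars false

namespace Pool.Agent.Work.MP_499dc6_lc.Gadget

open MvPolynomial Finset

variable {R : Type*} [CommRing R] {Λ : Type*} [DecidableEq Λ]

lemma Free_empty (P : MvPolynomial Λ R) : P ∈ Free (R := R) (∅ : Set Λ) := by
  rw [mem_supported]; simp

/-- only one group can be selected -/
lemma token_eqv {A : Type*} [Fintype A] [DecidableEq A] {S : Finset Λ} (x : A → Λ) (T : Λ)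
    (lam : MvPolynomial Λ R) (H Th : A → MvPolynomial Λ R) :
    Eqv S ∅ ((∑ a, X (x a) + lam * X T) * ∏ a, (X (x a) * H a + X T * Th a))
      (X T * (∏ a, X (x a)) * (∑ a, Th a * ∏ a' ∈ univ.erase a, H a' + lam * ∏ a, H a)) := by
  have hT : ∀ s : Finset A, Eqv S ∅ (X T * ∏ a ∈ s, (X (x a) * H a + X T * Th a))
      (X T * ∏ a ∈ s, (X (x a) * H a)) := by
    intro s
    induction s using Finset.induction_on with
    | empty => exact Eqv.refl _ _ _
    | insert a s ha ih =>
      rw [Finset.prod_insert ha, Finset.prod_insert ha]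
      have h1 := ih.mul_right (Free_empty (X (x a) * H a + X T * Th a))
      have h2 : X T * ((X (x a) * H a + X T * Th a) * ∏ a ∈ s, (X (x a) * H a + X T * Th a))
          = (X T * ∏ a ∈ s, (X (x a) * H a + X T * Th a)) * (X (x a) * H a + X T * Th a) := by
        ring
      rw [h2]
      refine h1.trans ?_
      have h3 : (X T * ∏ a ∈ s, (X (x a) * H a)) * (X (x a) * H a + X T * Th a)
          = X T * (X (x a) * H a * ∏ a ∈ s, (X (x a) * H a))
            + X T ^ 2 * (Th a * ∏ a ∈ s, (X (x a) * H a)) := by ring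
      rw [h3]
      have := (Eqv.refl S ∅ (X T * (X (x a) * H a * ∏ a ∈ s, (X (x a) * H a)))).add
        (Eqv.sq S ∅ T (Th a * ∏ a ∈ s, (X (x a) * H a)))
      simpa using this
  -- the sum
  have hsum : ∀ s : Finset A,
      Eqv S ∅ (∑ a ∈ s, X (x a) * ∏ a, (X (x a) * H a + X T * Th a))
        (∑ a ∈ s, X T * (∏ a, X (x a)) * (Th a * ∏ a' ∈ univ.erase a, H a')) := by
    intro s
    induction s using Finset.induction_on with
    | empty => exact Eqv.refl _ _ _
    | insert a s ha ih =>
      rw [Finset.sum_insert ha, Finset.sum_insert ha]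
      refine Eqv.add ?_ ih
      have hsplit : ∏ a, (X (x a) * H a + X T * Th a) =
          (X (x a) * H a + X T * Th a) * ∏ a' ∈ univ.erase a, (X (x a') * H a' + X T * Th a') :=
        (Finset.mul_prod_erase _ _ (mem_univ a)).symm
      have hsplit2 : ∏ a, (X (x a) : MvPolynomial Λ R) = X (x a) * ∏ a' ∈ univ.erase a, X (x a') :=
        (Finset.mul_prod_erase _ _ (mem_univ a)).symm
      rw [hsplit, hsplit2]
      have h1 : X (x a) * ((X (x a) * H a + X T * Th a) *
            ∏ a' ∈ univ.erase a, (X (x a') * H a' + X T * Th a'))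
          = (X T * ∏ a' ∈ univ.erase a, (X (x a') * H a' + X T * Th a')) * (X (x a) * Th a)
            + X (x a) ^ 2 * (H a * ∏ a' ∈ univ.erase a, (X (x a') * H a' + X T * Th a')) := by
        ring
      rw [h1]
      have h2 := ((hT (univ.erase a)).mul_right (Free_empty (X (x a) * Th a))).add
        (Eqv.sq S ∅ (x a) (H a * ∏ a' ∈ univ.erase a, (X (x a') * H a' + X T * Th a')))
      refine h2.trans (Eqv.of_eq ?_)
      rw [Finset.prod_mul_distrib]
      ring
  have h1 := hsum univ
  have h2 := (hT univ).mul_right (Free_empty lam)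
  have h3 := h1.add h2
  refine Eqv.trans (Eqv.of_eq ?_) (h3.trans (Eqv.of_eq ?_))
  · rw [← Finset.sum_mul]; ring
  · rw [← Finset.mul_sum, Finset.prod_mul_distrib]; ring

/-- the private column labels of one side -/
abbrev Priv (A : Type*) (k : ℕ) := (Unit ⊕ (A × Fin (k + 1))) ⊕ ((A × Fin k) ⊕ (A × Fin k))

variable {A : Type*} [Fintype A] [DecidableEq A]

/-- the four rows of a cell, multiplied -/
noncomputable def cell {k : ℕ} (p : Priv A (k + 1) → Λ)
    (H v : A → Fin (k + 1) → MvPolynomial Λ R) (a : A) (i : Fin (k + 1)) : MvPolynomial Λ R :=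
  (X (p (.inl (.inr (a, i.castSucc)))) + X (p (.inr (.inl (a, i)))) - X (p (.inr (.inr (a, i)))))
  * (X (p (.inr (.inl (a, i)))) + X (p (.inl (.inr (a, i.succ)))) + X (p (.inr (.inr (a, i)))))
  * (H a i + X (p (.inr (.inl (a, i)))) - X (p (.inl (.inr (a, i.succ))))
      - X (p (.inr (.inr (a, i)))))
  * (X (p (.inr (.inr (a, i)))) + v a i)

/-- one group -/
lemma group_eqv {k : ℕ} {S : Finset Λ} (p : Priv A (k + 1) → Λ) (hp : Function.Injective p)
    (hS : ∀ w, p w ∈ S) (H v : A → Fin (k + 1) → MvPolynomial Λ R)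
    (hH : ∀ a i, H a i ∈ Free (R := R) (Set.range p))
    (hv : ∀ a i, v a i ∈ Free (R := R) (Set.range p)) (a : A) :
    Eqv S ((Set.range fun i => p (.inr (.inl (a, i)))) ∪ (Set.range fun i => p (.inr (.inr (a, i))))
        ∪ (Set.range fun j : Fin (k + 1) => p (.inl (.inr (a, j.succ)))))
      ((X (p (.inl (.inr (a, Fin.last (k + 1))))) + X (p (.inl (.inl ())))) *
        ∏ i, cell p H v a i)
      (((∏ i, (X (p (.inr (.inl (a, i)))) * X (p (.inr (.inr (a, i)))))) *
          ∏ j : Fin (k + 1), X (p (.inl (.inr (a, j.succ))))) *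
        (X (p (.inl (.inr (a, 0)))) * ∏ i, H a i +
          X (p (.inl (.inl ()))) * ∏ i, (H a i - 2 * v a i))) := by
  classical
  set e : Fin (k + 2) → Λ := fun j => p (.inl (.inr (a, j))) with he
  set y : Fin (k + 1) → Λ := fun i => p (.inr (.inl (a, i))) with hy
  set z : Fin (k + 1) → Λ := fun i => p (.inr (.inr (a, i))) with hz
  set T : Λ := p (.inl (.inl ())) with hT
  set D : Fin (k + 1) → MvPolynomial Λ R := fun i =>
    X (e i.castSucc) * H a i + X (e i.succ) * (H a i - 2 * v a i) with hD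
  have heinj : Function.Injective e := by
    intro i j hij
    have := hp hij
    simpa using this
  have hr : ∀ (Y : Set Λ), Y ⊆ Set.range p → ∀ i, H a i ∈ Free (R := R) Y :=
    fun Y hY i => Free_mono hY (hH a i)
  have hr' : ∀ (Y : Set Λ), Y ⊆ Set.range p → ∀ i, v a i ∈ Free (R := R) Y :=
    fun Y hY i => Free_mono hY (hv a i)
  have hyz : ∀ i, ({y i, z i} : Set Λ) ⊆ Set.range p := by
    intro i x hx
    rcases hx with rfl | rfl
    · exact ⟨_, rfl⟩
    · exact ⟨_, rfl⟩
  have hcell : ∀ i, Eqv S {y i, z i} (cell p H v a i) (X (y i) * X (z i) * D i) := by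
    intro i
    refine cell_eqv (hS _) (hS _) ?_ ?_ ?_ ?_ (hr _ (hyz i) i) (hr' _ (hyz i) i)
    · intro h; exact absurd (hp h) (by simp)
    · intro h; exact absurd (hp h) (by simp)
    · intro h; exact absurd (hp h) (by simp)
    · refine X_mem_Free ?_
      rintro (h | h)
      · exact absurd (hp h) (by simp)
      · exact absurd (hp h) (by simp)
  have hXe : ∀ i (j : Fin (k + 2)), (X (e j) : MvPolynomial Λ R) ∈ Free (R := R) {y i, z i} := by
    intro i j
    refine X_mem_Free ?_
    rintro (h | h)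
    · exact absurd (hp h) (by simp)
    · exact absurd (hp h) (by simp)
  have hXT : ∀ i, (X T : MvPolynomial Λ R) ∈ Free (R := R) {y i, z i} := by
    intro i
    refine X_mem_Free ?_
    rintro (h | h)
    · exact absurd (hp h) (by simp)
    · exact absurd (hp h) (by simp)
  have hXyz : ∀ i j, j ≠ i → (X (y j) : MvPolynomial Λ R) ∈ Free (R := R) {y i, z i} ∧
      (X (z j) : MvPolynomial Λ R) ∈ Free (R := R) {y i, z i} := by
    intro i j hij
    constructor
    · refine X_mem_Free ?_
      rintro (h | h)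
      · exact absurd (hp h) (by simp [hij])
      · exact absurd (hp h) (by simp)
    · refine X_mem_Free ?_
      rintro (h | h)
      · exact absurd (hp h) (by simp)
      · exact absurd (hp h) (by simp [hij])
  have hDfree : ∀ i j, D j ∈ Free (R := R) {y i, z i} := by
    intro i j
    refine add_mem (mul_mem (hXe i _) (hr _ (hyz i) j)) (mul_mem (hXe i _)
      (sub_mem (hr _ (hyz i) j) (mul_mem ?_ (hr' _ (hyz i) j))))
    exact (Free (R := R) {y i, z i}).natCast_mem 2
  -- all cells
  have h1 : Eqv S (⋃ i ∈ (univ : Finset (Fin (k + 1))), ({y i, z i} : Set Λ))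
      (∏ i, cell p H v a i) (∏ i, (X (y i) * X (z i) * D i)) := by
    refine Eqv.prod univ (fun i _ => hcell i) ?_ ?_
    · intro i _ j _ hij
      obtain ⟨h1, h2⟩ := hXyz i j hij
      exact mul_mem (mul_mem (mul_mem (sub_mem (add_mem (hXe i _) h1) h2)
        (add_mem (add_mem h1 (hXe i _)) h2))
        (sub_mem (sub_mem (add_mem (hr _ (hyz i) j) h1) (hXe i _)) h2))
        (add_mem h2 (hr' _ (hyz i) j))
    · intro i _ j _ hij
      obtain ⟨h1, h2⟩ := hXyz i j hij
      exact mul_mem (mul_mem h1 h2) (hDfree i j)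
  -- the closing row
  have hclose : (X (e (Fin.last (k + 1))) + X T : MvPolynomial Λ R) ∈
      Free (R := R) (⋃ i ∈ (univ : Finset (Fin (k + 1))), ({y i, z i} : Set Λ)) := by
    refine add_mem (X_mem_Free ?_) (X_mem_Free ?_)
    · rw [Set.mem_iUnion₂]
      rintro ⟨i, _, h | h⟩
      · exact absurd (hp h) (by simp)
      · exact absurd (hp h) (by simp)
    · rw [Set.mem_iUnion₂]
      rintro ⟨i, _, h | h⟩
      · exact absurd (hp h) (by simp)
      · exact absurd (hp h) (by simp)
  have h2 := h1.mul_left hclose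
  -- the chain
  have hre : Set.range e ⊆ Set.range p := by rintro _ ⟨i, rfl⟩; exact ⟨_, rfl⟩
  have h3 := chain_eqv (S := S) k e heinj (fun i => hS _) (fun i => H a i)
    (fun i => H a i - 2 * v a i) (fun i => hr _ hre i)
    (fun i => sub_mem (hr _ hre i) (mul_mem ((Free (R := R) (Set.range e)).natCast_mem 2)
      (hr' _ hre i)))
  set Hp : MvPolynomial Λ R := ∏ i, H a i with hHp
  set Tp : MvPolynomial Λ R := ∏ i, (H a i - 2 * v a i) with hTp
  set B : Set Λ := Set.range fun j : Fin (k + 1) => e j.succ with hB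
  have hBe : B ⊆ Set.range e := by rintro _ ⟨i, rfl⟩; exact ⟨_, rfl⟩
  have hAB : (Set.range fun i : Fin k => e i.succ.castSucc) ⊆ B := by
    rintro _ ⟨i, rfl⟩; exact ⟨i.castSucc, rfl⟩
  -- multiply by the closing row
  have hTfree : (X T : MvPolynomial Λ R) ∈ Free (R := R) (Set.range e) := by
    refine X_mem_Free ?_
    rintro ⟨i, h⟩
    exact absurd (hp h) (by simp)
  have hclose2 : (X (e (Fin.last (k + 1))) + X T : MvPolynomial Λ R) ∈
      Free (R := R) (Set.range fun i : Fin k => e i.succ.castSucc) := by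
    refine add_mem (X_mem_Free ?_) (Free_mono (hAB.trans hBe) hTfree)
    rintro ⟨i, h⟩
    have h2 := congrArg Fin.val (heinj h)
    simp at h2
    have := i.isLt
    omega
  have h4 : Eqv S B ((X (e (Fin.last (k + 1))) + X T) * ∏ i, D i)
      ((∏ j : Fin (k + 1), X (e j.succ)) * (X (e 0) * Hp + X T * Tp)) := by
    have h5 := (h3.mul_left hclose2).mono hAB
    refine h5.trans ?_
    set el : Λ := e (Fin.last (k + 1)) with hel
    have helB : el ∈ B := ⟨Fin.last k, rfl⟩
    set Pk : MvPolynomial Λ R := ∏ i : Fin k, X (e i.succ.castSucc) with hPk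
    have e1 : (X el + X T) * (Pk * (X (e 0) * Hp + X el * Tp))
        = (Pk * X el) * (X (e 0) * Hp + X T * Tp) + X el ^ 2 * (Pk * Tp)
          + X T * (Pk * (X (e 0) * Hp)) := by ring
    have e2 : (∏ j : Fin (k + 1), X (e j.succ) : MvPolynomial Λ R) = Pk * X el := by
      rw [Fin.prod_univ_castSucc]
      rfl
    rw [e1, e2]
    have hel_sub : ({el} : Set Λ) ⊆ Set.range e := by rintro _ rfl; exact ⟨_, rfl⟩
    have h6 : Eqv S B (X T * (Pk * (X (e 0) * Hp))) 0 := by
      refine Eqv.free helB (hS _) ?_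
      refine mul_mem (Free_mono hel_sub hTfree) (mul_mem (prod_mem fun i _ => X_mem_Free ?_)
        (mul_mem (X_mem_Free ?_) (prod_mem fun i _ => hr _ (hel_sub.trans hre) i)))
      · intro h
        have h2 := congrArg Fin.val (heinj h)
        simp at h2
        have := i.isLt
        omega
      · intro h
        have h2 := congrArg Fin.val (heinj h)
        simp at h2
    have := ((Eqv.refl S B ((Pk * X el) * (X (e 0) * Hp + X T * Tp))).add
      (Eqv.sq S B el (Pk * Tp))).add h6
    simpa using this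
  -- combine
  have hprodyz : (∏ i, (X (y i) * X (z i)) : MvPolynomial Λ R) ∈ Free (R := R) B := by
    refine prod_mem fun i _ => mul_mem (X_mem_Free ?_) (X_mem_Free ?_)
    · rintro ⟨j, h⟩
      exact absurd (hp h) (by simp)
    · rintro ⟨j, h⟩
      exact absurd (hp h) (by simp)
  have h5 := h4.mul_left hprodyz
  have hsubU : (⋃ i ∈ (univ : Finset (Fin (k + 1))), ({y i, z i} : Set Λ)) ⊆
      (Set.range y) ∪ (Set.range z) ∪ B := by
    intro x hx
    rw [Set.mem_iUnion₂] at hx
    obtain ⟨i, _, h | h⟩ := hx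
    · left; left; exact ⟨i, h.symm⟩
    · left; right; exact ⟨i, h.symm⟩
  refine (h2.mono hsubU).trans ?_
  have e3 : (X (e (Fin.last (k + 1))) + X T) * ∏ i, (X (y i) * X (z i) * D i)
      = (∏ i, (X (y i) * X (z i))) * ((X (e (Fin.last (k + 1))) + X T) * ∏ i, D i) := by
    rw [Finset.prod_mul_distrib]; ring
  rw [e3]
  refine (h5.mono Set.subset_union_right).trans (Eqv.of_eq ?_)
  rw [mul_assoc]

/-- the product of all rows of one side -/
noncomputable def sideProd {k : ℕ} (p : Priv A (k + 1) → Λ) (lam : MvPolynomial Λ R)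
    (H v : A → Fin (k + 1) → MvPolynomial Λ R) : MvPolynomial Λ R :=
  (∑ a, X (p (.inl (.inr (a, 0)))) + lam * X (p (.inl (.inl ())))) *
    ∏ a, ((X (p (.inl (.inr (a, Fin.last (k + 1))))) + X (p (.inl (.inl ())))) *
        ∏ i, cell p H v a i)

/-- what remains of one side after elimination of the private columns -/
noncomputable def sideVal {k : ℕ} (lam : MvPolynomial Λ R)
    (H v : A → Fin (k + 1) → MvPolynomial Λ R) : MvPolynomial Λ R :=
  ∑ a, (∏ i, (H a i - 2 * v a i)) * ∏ a' ∈ univ.erase a, ∏ i, H a' i + lam * ∏ a, ∏ i, H a i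

lemma side_eqv {k : ℕ} {S : Finset Λ} (p : Priv A (k + 1) → Λ) (hp : Function.Injective p)
    (hS : ∀ w, p w ∈ S) (lam : MvPolynomial Λ R) (hlam : lam ∈ Free (R := R) (Set.range p))
    (H v : A → Fin (k + 1) → MvPolynomial Λ R)
    (hH : ∀ a i, H a i ∈ Free (R := R) (Set.range p))
    (hv : ∀ a i, v a i ∈ Free (R := R) (Set.range p)) :
    Eqv S (Set.range p) (sideProd p lam H v)
      ((∏ w, X (p w)) * sideVal lam H v) := by
  classical
  set Y : A → Set Λ := fun a =>
    (Set.range fun i => p (.inr (.inl (a, i)))) ∪ (Set.range fun i => p (.inr (.inr (a, i))))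
        ∪ (Set.range fun j : Fin (k + 1) => p (.inl (.inr (a, j.succ)))) with hY
  have hYp : ∀ a, Y a ⊆ Set.range p := by
    rintro a x ((⟨i, rfl⟩ | ⟨i, rfl⟩) | ⟨i, rfl⟩) <;> exact ⟨_, rfl⟩
  have hnot : ∀ a (w : Priv A (k + 1)),
      (∀ i, w ≠ .inr (.inl (a, i))) → (∀ i, w ≠ .inr (.inr (a, i))) →
      (∀ j : Fin (k + 1), w ≠ .inl (.inr (a, j.succ))) →
      (X (p w) : MvPolynomial Λ R) ∈ Free (R := R) (Y a) := by
    intro a w h1 h2 h3
    refine X_mem_Free ?_
    rintro ((⟨i, h⟩ | ⟨i, h⟩) | ⟨i, h⟩)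
    · exact h1 i (hp h).symm
    · exact h2 i (hp h).symm
    · exact h3 i (hp h).symm
  have hHY : ∀ a a' i, H a' i ∈ Free (R := R) (Y a) := fun a a' i => Free_mono (hYp a) (hH a' i)
  have hvY : ∀ a a' i, v a' i ∈ Free (R := R) (Y a) := fun a a' i => Free_mono (hYp a) (hv a' i)
  have hgr := fun a => group_eqv p hp hS H v hH hv a
  have hprod := Eqv.prod (S := S) (Y := Y) (univ : Finset A)
    (P := fun a => (X (p (.inl (.inr (a, Fin.last (k + 1))))) + X (p (.inl (.inl ())))) *
        ∏ i, cell p H v a i)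
    (P' := fun a => ((∏ i, (X (p (.inr (.inl (a, i)))) * X (p (.inr (.inr (a, i)))))) *
          ∏ j : Fin (k + 1), X (p (.inl (.inr (a, j.succ))))) *
        (X (p (.inl (.inr (a, 0)))) * ∏ i, H a i +
          X (p (.inl (.inl ()))) * ∏ i, (H a i - 2 * v a i)))
    (fun a _ => hgr a)
    (by
      intro a _ b _ hab
      refine mul_mem (add_mem ?_ ?_) (prod_mem fun i _ => ?_)
      · exact hnot a _ (by simp) (by simp) (by simp [hab])
      · exact hnot a _ (by simp) (by simp) (by simp)
      · have hx1 := hnot a (.inl (.inr (b, i.castSucc))) (by simp) (by simp) (by simp [hab])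
        have hx2 := hnot a (.inl (.inr (b, i.succ))) (by simp) (by simp) (by simp [hab])
        have hx3 := hnot a (.inr (.inl (b, i))) (by simp [hab]) (by simp) (by simp)
        have hx4 := hnot a (.inr (.inr (b, i))) (by simp) (by simp [hab]) (by simp)
        exact mul_mem (mul_mem (mul_mem (sub_mem (add_mem hx1 hx3) hx4)
          (add_mem (add_mem hx3 hx2) hx4))
          (sub_mem (sub_mem (add_mem (hHY _ _ _) hx3) hx2) hx4)) (add_mem hx4 (hvY _ _ _)))
    (by
      intro a _ b _ hab
      refine mul_mem (mul_mem (prod_mem fun i _ => mul_mem ?_ ?_) (prod_mem fun i _ => ?_))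
        (add_mem (mul_mem ?_ (prod_mem fun i _ => hHY _ _ _)) (mul_mem ?_
          (prod_mem fun i _ => sub_mem (hHY _ _ _)
            (mul_mem ((Free (R := R) (Y a)).natCast_mem 2) (hvY _ _ _)))))
      · exact hnot a _ (by simp [hab]) (by simp) (by simp)
      · exact hnot a _ (by simp) (by simp [hab]) (by simp)
      · exact hnot a _ (by simp) (by simp) (by simp [hab])
      · exact hnot a _ (by simp) (by simp) (by simp [hab])
      · exact hnot a _ (by simp) (by simp) (by simp))
  have hUsub : (⋃ a ∈ (univ : Finset A), Y a) ⊆ Set.range p := by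
    intro x hx
    rw [Set.mem_iUnion₂] at hx
    obtain ⟨a, _, h⟩ := hx
    exact hYp a h
  -- the token row does not involve the variables eliminated so far
  have htok : (∑ a, X (p (.inl (.inr (a, 0)))) + lam * X (p (.inl (.inl ()))) :
      MvPolynomial Λ R) ∈ Free (R := R) (⋃ a ∈ (univ : Finset A), Y a) := by
    refine add_mem (sum_mem fun a _ => X_mem_Free ?_)
      (mul_mem (Free_mono hUsub hlam) (X_mem_Free ?_))
    · rw [Set.mem_iUnion₂]
      rintro ⟨b, _, ((⟨i, h⟩ | ⟨i, h⟩) | ⟨i, h⟩)⟩
      · exact absurd (hp h) (by simp)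
      · exact absurd (hp h) (by simp)
      · have := hp h
        simp only [Sum.inl.injEq, Sum.inr.injEq, Prod.mk.injEq] at this
        exact absurd this.2 (Fin.succ_ne_zero i)
    · rw [Set.mem_iUnion₂]
      rintro ⟨b, _, ((⟨i, h⟩ | ⟨i, h⟩) | ⟨i, h⟩)⟩
      · exact absurd (hp h) (by simp)
      · exact absurd (hp h) (by simp)
      · exact absurd (hp h) (by simp)
  have h1 := (hprod.mul_left htok).mono hUsub
  refine h1.trans ?_
  have h2 := token_eqv (S := S) (fun a => p (.inl (.inr (a, 0)))) (p (.inl (.inl ()))) lam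
    (fun a => ∏ i, H a i) (fun a => ∏ i, (H a i - 2 * v a i))
  have h3 := (h2.mul_left (Free_empty (∏ a, ((∏ i, (X (p (.inr (.inl (a, i)))) *
    X (p (.inr (.inr (a, i)))))) *
          ∏ j : Fin (k + 1), X (p (.inl (.inr (a, j.succ)))))))).mono
      (Set.empty_subset (Set.range p))
  refine Eqv.trans (Eqv.of_eq ?_) (h3.trans (Eqv.of_eq ?_))
  · rw [Finset.prod_mul_distrib]; ring
  · unfold sideVal
    rw [Fintype.prod_sum_type, Fintype.prod_sum_type, Fintype.prod_sum_type,
      Fintype.prod_prod_type, Fintype.prod_prod_type, Fintype.prod_prod_type]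
    simp only [Finset.prod_mul_distrib, Fin.prod_univ_succ (n := k + 1), univ_unique,
      Finset.prod_singleton]
    simp only [PUnit.default_eq_unit]
    ring

end Pool.Agent.Work.MP_499dc6_lc.Gadget
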