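import Pool.Agent.Work.MP_499dc6_lc.Gadget.Copy

/-!
One side of the gadget, with its copy cells.
-/

set_option linter.unusedSectionVars false

namespace Pool.Agent.Work.MP_499dc6_lc.Gadget

open MvPolynomial Finset

variable {R : Type*} [CommRing R] {Λ : Type*} [DecidableEq Λ]
variable {A : Type*} [Fintype A] [DecidableEq A]

lemma Eqv.sum {ι : Type*} {S : Finset Λ} {Y : Set Λ} (s : Finset ι)
    {P P' : ι → MvPolynomial Λ R} (h : ∀ i ∈ s, Eqv S Y (P i) (P' i)) :
    Eqv S Y (∑ i ∈ s, P i) (∑ i ∈ s, P' i) := by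
  intro Q hQ
  rw [Finset.sum_mul, Finset.sum_mul, map_sum, map_sum]
  exact Finset.sum_congr rfl fun i hi => h i hi Q hQ

/-- labels of one side: the private labels, the ports `h`, the auxiliary `yy`, the ports `t` -/
abbrev SideV (A : Type*) (k L : ℕ) :=
  Priv A (k + 1) ⊕ (((A × Fin (k + 1)) × Fin (L + 1)) ⊕
    (((A × Fin (k + 1)) × Fin L) ⊕ ((A × Fin (k + 1)) × Fin L)))

/-- the private labels of the copy cells -/
def cpIncl (A : Type*) (k L : ℕ) :
    (((A × Fin (k + 1)) × Fin L) ⊕ ((A × Fin (k + 1)) × Fin L)) → SideV A k L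
  | .inl w => .inr (.inl (w.1, w.2.castSucc))
  | .inr w => .inr (.inr (.inl w))

lemma sideVal_eq {k : ℕ} (lam : MvPolynomial Λ R) (H v : A → Fin (k + 1) → MvPolynomial Λ R) :
    sideVal lam H v = ∑ a, ∏ r : A × Fin (k + 1), (H r.1 r.2 +
      (if r.1 = a then - 2 * v r.1 r.2 else 0)) + lam * ∏ r : A × Fin (k + 1), H r.1 r.2 := by
  unfold sideVal
  congr 1
  · refine Finset.sum_congr rfl fun a _ => ?_
    rw [Fintype.prod_prod_type, ← Finset.mul_prod_erase _ _ (mem_univ a)]
    congr 1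
    · refine Finset.prod_congr rfl fun i _ => ?_
      simp only [if_true]; ring
    · refine Finset.prod_congr rfl fun a' ha' => ?_
      refine Finset.prod_congr rfl fun i _ => ?_
      rw [if_neg (Finset.ne_of_mem_erase ha')]; ring
  · rw [Fintype.prod_prod_type]

lemma prod_pair_mul {M ι κ : Type*} [CommMonoid M] [Fintype ι] [Fintype κ] (f g : ι → κ → M) :
    ∏ r, ∏ l, (f r l * g r l) = (∏ w : ι × κ, f w.1 w.2) * ∏ w : ι × κ, g w.1 w.2 := by
  rw [← Finset.prod_mul_distrib, Fintype.prod_prod_type]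

/-- the product of all the copy rows of a side -/
noncomputable def copyProd {k L : ℕ} (p : SideV A k L → Λ)
    (o : Fin L → A → Fin (k + 1) → MvPolynomial Λ R) : MvPolynomial Λ R :=
  ∏ r : A × Fin (k + 1), ∏ l : Fin L,
    copyRows (p (.inr (.inl (r, l.castSucc)))) (p (.inr (.inr (.inl (r, l)))))
      (p (.inr (.inr (.inr (r, l))))) (p (.inr (.inl (r, l.succ)))) (o l r.1 r.2)

lemma copyProd_term {k L : ℕ} {S : Finset Λ} (p : SideV A k L → Λ) (hp : Function.Injective p)
    (hS : ∀ w, p w ∈ S)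
    (o : Fin L → A → Fin (k + 1) → MvPolynomial Λ R)
    (ho : ∀ l a i, o l a i ∈ Free (R := R) (Set.range p))
    (B : A × Fin (k + 1) → MvPolynomial Λ R)
    (hB : ∀ r, B r ∈ Free (R := R) (Set.range p)) :
    Eqv S (Set.range fun w => p (cpIncl A k L w))
      ((∏ r : A × Fin (k + 1), (X (p (.inr (.inl (r, 0)))) + B r)) * copyProd p o)
      ((∏ w, X (p (cpIncl A k L w))) * ∏ r : A × Fin (k + 1),
        (X (p (.inr (.inl (r, Fin.last L)))) * (∏ l : Fin L, (2 * X (p (.inr (.inr (.inr (r, l)))))))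
          + (∏ l, o l r.1 r.2) * B r)) := by
  classical
  set Y : A × Fin (k + 1) → Set Λ := fun r =>
    (Set.range fun l : Fin L => p (.inr (.inl (r, l.castSucc)))) ∪
      (Set.range fun l : Fin L => p (.inr (.inr (.inl (r, l))))) with hY
  have hYp : ∀ r, (Set.range fun l : Fin (L + 1) => p (.inr (.inl (r, l)))) ∪
      (Set.range fun l : Fin L => p (.inr (.inr (.inl (r, l))))) ⊆ Set.range p := by
    rintro r x (⟨i, rfl⟩ | ⟨i, rfl⟩) <;> exact ⟨_, rfl⟩
  have hYp' : ∀ r, Y r ⊆ Set.range p := by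
    rintro r x (⟨i, rfl⟩ | ⟨i, rfl⟩) <;> exact ⟨_, rfl⟩
  have hchain : ∀ r, Eqv S (Y r)
      ((X (p (.inr (.inl (r, 0)))) * 1 + B r) * ∏ l : Fin L,
        copyRows (p (.inr (.inl (r, l.castSucc)))) (p (.inr (.inr (.inl (r, l)))))
          (p (.inr (.inr (.inr (r, l))))) (p (.inr (.inl (r, l.succ)))) (o l r.1 r.2))
      ((∏ l : Fin L, (X (p (.inr (.inl (r, l.castSucc)))) * X (p (.inr (.inr (.inl (r, l))))))) *
        (X (p (.inr (.inl (r, Fin.last L)))) * ((∏ l : Fin L,
          (2 * X (p (.inr (.inr (.inr (r, l))))))) * 1) + (∏ l, o l r.1 r.2) * B r)) := by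
    intro r
    refine copyChain_eqv (S := S) L (fun l => p (.inr (.inl (r, l))))
      (fun l => p (.inr (.inr (.inl (r, l))))) (fun l => p (.inr (.inr (.inr (r, l)))))
      ?_ ?_ ?_ ?_ ?_ (fun i => hS _) (fun i => hS _) (fun l => o l r.1 r.2) 1 (B r)
      (fun i => Free_mono (hYp r) (ho _ _ _)) (one_mem _) (Free_mono (hYp r) (hB r))
    · intro i j hij; simpa using hp hij
    · intro i j hij; simpa using hp hij
    · intro i j hij; exact absurd (hp hij) (by simp)
    · intro i j hij; exact absurd (hp hij) (by simp)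
    · intro i j hij; exact absurd (hp hij) (by simp)
  have hnot : ∀ r (w : SideV A k L),
      (∀ l : Fin L, w ≠ .inr (.inl (r, l.castSucc))) → (∀ l : Fin L, w ≠ .inr (.inr (.inl (r, l)))) →
      (X (p w) : MvPolynomial Λ R) ∈ Free (R := R) (Y r) := by
    intro r w h1 h2
    refine X_mem_Free ?_
    rintro (⟨i, h⟩ | ⟨i, h⟩)
    · exact h1 i (hp h).symm
    · exact h2 i (hp h).symm
  have hprod := Eqv.prod (S := S) (Y := Y) univ (fun r _ => hchain r)
    (by
      intro r _ r' _ hrr
      refine mul_mem (add_mem (mul_mem ?_ (one_mem _)) (Free_mono (hYp' r) (hB r')))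
        (prod_mem fun l _ => ?_)
      · exact hnot r _ (by intro l; simp [hrr]) (by simp)
      · have e1 := hnot r (.inr (.inl (r', l.castSucc))) (by intro l; simp [hrr]) (by simp)
        have e2 := hnot r (.inr (.inr (.inl (r', l)))) (by simp) (by intro l; simp [hrr])
        have e3 := hnot r (.inr (.inr (.inr (r', l)))) (by simp) (by simp)
        have e4 := hnot r (.inr (.inl (r', l.succ))) (by intro l; simp [hrr]) (by simp)
        have e5 := Free_mono (hYp' r) (ho l r'.1 r'.2)
        exact mul_mem (mul_mem (sub_mem (add_mem (add_mem e3 e4) e5) e2)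
          (add_mem (add_mem e2 e3) e4)) (sub_mem (sub_mem (add_mem e2 e1) e3) e4))
    (by
      intro r _ r' _ hrr
      refine mul_mem (prod_mem fun l _ => mul_mem ?_ ?_) (add_mem (mul_mem ?_
        (mul_mem (prod_mem fun l _ => mul_mem ((Free (R := R) (Y r)).natCast_mem 2) ?_)
        (one_mem _))) (mul_mem (prod_mem fun l _ => Free_mono (hYp' r) (ho l r'.1 r'.2))
        (Free_mono (hYp' r) (hB r'))))
      · exact hnot r _ (by intro l; simp [hrr]) (by simp)
      · exact hnot r _ (by simp) (by intro l; simp [hrr])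
      · exact hnot r _ (by intro l; simp [hrr]) (by simp)
      · exact hnot r _ (by simp) (by simp))
  have hsub : (⋃ r ∈ (univ : Finset (A × Fin (k + 1))), Y r) ⊆
      Set.range fun w => p (cpIncl A k L w) := by
    intro x hx
    rw [Set.mem_iUnion₂] at hx
    obtain ⟨r, _, ⟨l, rfl⟩ | ⟨l, rfl⟩⟩ := hx
    · exact ⟨.inl (r, l), rfl⟩
    · exact ⟨.inr (r, l), rfl⟩
  refine Eqv.trans (Eqv.of_eq ?_) ((hprod.mono hsub).trans (Eqv.of_eq ?_))
  · unfold copyProd
    rw [← Finset.prod_mul_distrib]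
    refine Finset.prod_congr rfl fun r _ => ?_
    rw [mul_one]
  · rw [Finset.prod_mul_distrib, Fintype.prod_sum_type, prod_pair_mul]
    congr 1
    refine Finset.prod_congr rfl fun r _ => ?_
    rw [mul_one]

lemma copyProd_eqv {k L : ℕ} {S : Finset Λ} (p : SideV A k L → Λ) (hp : Function.Injective p)
    (hS : ∀ w, p w ∈ S) (v : A → Fin (k + 1) → MvPolynomial Λ R)
    (o : Fin L → A → Fin (k + 1) → MvPolynomial Λ R)
    (hv : ∀ a i, v a i ∈ Free (R := R) (Set.range p))
    (ho : ∀ l a i, o l a i ∈ Free (R := R) (Set.range p)) (lam : MvPolynomial Λ R)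
    (hlam : lam ∈ Free (R := R) (Set.range p)) :
    Eqv S (Set.range fun w => p (cpIncl A k L w))
      (sideVal lam (fun a i => X (p (.inr (.inl ((a, i), 0))))) v * copyProd p o)
      ((∏ w, X (p (cpIncl A k L w))) * sideVal lam
        (fun a i => X (p (.inr (.inl ((a, i), Fin.last L)))) *
          ∏ l : Fin L, (2 * X (p (.inr (.inr (.inr ((a, i), l)))))))
        (fun a i => (∏ l, o l a i) * v a i)) := by
  have hsub : (Set.range fun w => p (cpIncl A k L w)) ⊆ Set.range p := by
    rintro _ ⟨w, rfl⟩; exact ⟨_, rfl⟩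
  rw [sideVal_eq, sideVal_eq]
  have h1 : ∀ a ∈ (univ : Finset A), Eqv S (Set.range fun w => p (cpIncl A k L w)) _ _ :=
    fun a _ => copyProd_term (S := S) p hp hS o ho
      (fun r => if r.1 = a then - 2 * v r.1 r.2 else 0)
      (fun r => by
        split_ifs
        · exact mul_mem (neg_mem ((Free (R := R) (Set.range p)).natCast_mem 2)) (hv _ _)
        · exact zero_mem _)
  have h2 := Eqv.sum univ h1
  have h3 := (copyProd_term (S := S) p hp hS o ho (fun r => 0) (fun r => zero_mem _)).mul_left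
    (Free_mono hsub hlam)
  have h4 := h2.add h3
  clear h1 h2 h3
  simp only [add_zero, mul_zero] at h4
  rw [← Finset.sum_mul, ← Finset.mul_sum] at h4
  refine Eqv.trans (Eqv.of_eq ?_) (h4.trans (Eqv.of_eq ?_))
  · rw [add_mul, mul_assoc]
  · rw [mul_add, ← mul_assoc, ← mul_assoc, mul_comm lam]
    congr 2
    refine Finset.sum_congr rfl fun a _ => Finset.prod_congr rfl fun r _ => ?_
    congr 1
    split_ifs
    · rw [mul_left_comm]
    · rw [mul_zero]

end Pool.Agent.Work.MP_499dc6_lc.Gadget
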